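import Mathlib

/-!
The round lemma for an abstract `(1:2)` system.
-/

open Finset

namespace Clique12

/-- Abstract data for the potential argument. `inc e A` : the board element `e` belongs to the
winning set `A`; `w U A` is the weight and `W U A B` the pair weight, when `U` is the set of
unclaimed board elements. -/
structure Sys (E Γ : Type*) [DecidableEq E] where
  inc : E → Γ → Prop
  board : Finset E
  w : Finset E → Γ → ℝ
  W : Finset E → Γ → Γ → ℝ
  w_nonneg : ∀ U A, 0 ≤ w U A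
  W_nonneg : ∀ U A B, 0 ≤ W U A B
  W_symm : ∀ U A B, W U A B = W U B A
  w_out : ∀ U e A, ¬ inc e A → w (U.erase e) A = w U A
  w_in : ∀ U e A, e ∈ U → inc e A → w (U.erase e) A = 3 * w U A
  W_out : ∀ U e A B, ¬ inc e A → ¬ inc e B → W (U.erase e) A B = W U A B
  W_one : ∀ U e A B, e ∈ U → inc e A → ¬ inc e B → W (U.erase e) A B = 3 * W U A B
  W_le : ∀ U e A B, U ⊆ board → e ∈ U → inc e A → inc e B → W (U.erase e) A B ≤ 3 * W U A B
  W_ge : ∀ U e A B, U ⊆ board → e ∈ U → inc e A → inc e B →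
    108 / 49 * W U A B ≤ W (U.erase e) A B
  W_big : ∀ U x y A B, U ⊆ board → x ∈ U → y ∈ U → x ≠ y → inc x A → inc x B → inc y A →
    inc y B → 9 * (w U A * w U B) ≤ W U A B
  cross : ∀ (U : Finset E) (F : Finset Γ) (y z : E) (iy iz : Γ → ℝ), U ⊆ board → y ∈ U → z ∈ U →
    (∀ A, inc y A → iy A = 1) → (∀ A, ¬ inc y A → iy A = 0) →
    (∀ A, inc z A → iz A = 1) → (∀ A, ¬ inc z A → iz A = 0) →
    2 * ∑ A ∈ F, ∑ B ∈ F, W U A B * (iy A * (1 - iz A) * (iz B * (1 - iy B))) ≤
      ∑ A ∈ F, ∑ B ∈ F, iy A * iy B * ((3 * W U A B - W (U.erase y) A B) / 2) +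
      ∑ A ∈ F, ∑ B ∈ F, iz A * iz B * ((3 * W U A B - W (U.erase z) A B) / 2)

namespace Sys

variable {E Γ : Type*} [DecidableEq E] [DecidableEq Γ] (S : Sys E Γ)

open Classical in
noncomputable def ind (e : E) (A : Γ) : ℝ := if S.inc e A then 1 else 0

theorem ind_pos {e : E} {A : Γ} (h : S.inc e A) : S.ind e A = 1 := by rw [ind, if_pos h]

theorem ind_neg {e : E} {A : Γ} (h : ¬ S.inc e A) : S.ind e A = 0 := by rw [ind, if_neg h]

theorem ind_nonneg (e : E) (A : Γ) : 0 ≤ S.ind e A := by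
  by_cases h : S.inc e A
  · rw [S.ind_pos h]; norm_num
  · rw [S.ind_neg h]

theorem W_one' (U : Finset E) (e : E) (A B : Γ) (he : e ∈ U) (hA : ¬ S.inc e A)
    (hB : S.inc e B) : S.W (U.erase e) A B = 3 * S.W U A B := by
  rw [S.W_symm _ A B, S.W_one U e B A he hB hA, S.W_symm U B A]

/-- the potential of a subfamily -/
noncomputable def pot (lam : ℝ) (U : Finset E) (F : Finset Γ) : ℝ :=
  ∑ A ∈ F, S.w U A - lam * ∑ A ∈ F, ∑ B ∈ F, S.W U A B

/-- half of the gain in potential when Maker takes `v` -/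
noncomputable def gain (lam : ℝ) (U : Finset E) (F : Finset Γ) (v : E) : ℝ :=
  (S.pot lam (U.erase v) F - S.pot lam U F) / 2

theorem w_erase (U : Finset E) (e : E) (A : Γ) (he : e ∈ U) :
    S.w (U.erase e) A = (1 + 2 * S.ind e A) * S.w U A := by
  by_cases h : S.inc e A
  · rw [S.w_in U e A he h, S.ind_pos h]; ring
  · rw [S.w_out U e A h, S.ind_neg h]; ring

theorem gain_eq (lam : ℝ) (U : Finset E) (F : Finset Γ) (v : E) (hv : v ∈ U) :
    S.gain lam U F v = ∑ A ∈ F, S.ind v A * S.w U A -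
      lam / 2 * ∑ A ∈ F, ∑ B ∈ F, (S.W (U.erase v) A B - S.W U A B) := by
  have h1 : ∑ A ∈ F, S.w (U.erase v) A =
      ∑ A ∈ F, S.w U A + 2 * ∑ A ∈ F, S.ind v A * S.w U A := by
    rw [Finset.mul_sum, ← Finset.sum_add_distrib]
    refine Finset.sum_congr rfl (fun A _ => ?_)
    rw [S.w_erase U v A hv]; ring
  unfold gain pot
  rw [h1]
  simp only [Finset.sum_sub_distrib]
  ring

/-- (I1) -/
theorem half_diff (U : Finset E) (y : E) (A B : Γ) (hy : y ∈ U) :
    (S.W (U.erase y) A B - S.W U A B) / 2 =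
      S.W U A B * (S.ind y A + S.ind y B - S.ind y A * S.ind y B) -
        S.ind y A * S.ind y B * ((3 * S.W U A B - S.W (U.erase y) A B) / 2) := by
  by_cases hA : S.inc y A <;> by_cases hB : S.inc y B
  · rw [S.ind_pos hA, S.ind_pos hB]; ring
  · rw [S.ind_pos hA, S.ind_neg hB, S.W_one U y A B hy hA hB]; ring
  · rw [S.ind_neg hA, S.ind_pos hB, S.W_one' U y A B hy hA hB]; ring
  · rw [S.ind_neg hA, S.ind_neg hB, S.W_out U y A B hA hB]; ring

/-- the second difference bound -/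
theorem DD_ge (U : Finset E) (hU : U ⊆ S.board) (x y : E) (A B : Γ) (hx : x ∈ U) (hy : y ∈ U)
    (hxy : x ≠ y) :
    12 / 5 * (S.W U A B * ((S.ind x A * (1 - S.ind x B) + S.ind x B * (1 - S.ind x A)) *
        (S.ind y A + S.ind y B - S.ind y A * S.ind y B))) +
      4 / 9 * (S.ind x A * S.ind x B * (S.ind y A * S.ind y B) * S.W U A B) ≤
    S.W ((U.erase x).erase y) A B - S.W (U.erase x) A B - S.W (U.erase y) A B + S.W U A B := by
  have hW := S.W_nonneg U A B
  have hyx : y ∈ U.erase x := Finset.mem_erase.2 ⟨hxy.symm, hy⟩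
  have hxy' : x ∈ U.erase y := Finset.mem_erase.2 ⟨hxy, hx⟩
  have hUx : U.erase x ⊆ S.board := (Finset.erase_subset _ _).trans hU
  have hUy : U.erase y ⊆ S.board := (Finset.erase_subset _ _).trans hU
  by_cases hxA : S.inc x A <;> by_cases hxB : S.inc x B <;> by_cases hyA : S.inc y A <;>
    by_cases hyB : S.inc y B
  · -- all in
    rw [S.ind_pos hxA, S.ind_pos hxB, S.ind_pos hyA, S.ind_pos hyB]
    have h1 := S.W_ge (U.erase x) y A B hUx hyx hyA hyB
    have h2 := S.W_ge U x A B hU hx hxA hxB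
    have h3 := S.W_le U y A B hU hy hyA hyB
    nlinarith
  · rw [S.ind_pos hxA, S.ind_pos hxB, S.ind_pos hyA, S.ind_neg hyB,
      S.W_one (U.erase x) y A B hyx hyA hyB, S.W_one U y A B hy hyA hyB]
    have h2 := S.W_ge U x A B hU hx hxA hxB
    nlinarith
  · rw [S.ind_pos hxA, S.ind_pos hxB, S.ind_neg hyA, S.ind_pos hyB,
      S.W_one' (U.erase x) y A B hyx hyA hyB, S.W_one' U y A B hy hyA hyB]
    have h2 := S.W_ge U x A B hU hx hxA hxB
    nlinarith
  · rw [S.ind_pos hxA, S.ind_pos hxB, S.ind_neg hyA, S.ind_neg hyB,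
      S.W_out (U.erase x) y A B hyA hyB, S.W_out U y A B hyA hyB]
    nlinarith
  · -- x in A only, y in both
    rw [S.ind_pos hxA, S.ind_neg hxB, S.ind_pos hyA, S.ind_pos hyB, Finset.erase_right_comm,
      S.W_one (U.erase y) x A B hxy' hxA hxB, S.W_one U x A B hx hxA hxB]
    have h2 := S.W_ge U y A B hU hy hyA hyB
    nlinarith
  · rw [S.ind_pos hxA, S.ind_neg hxB, S.ind_pos hyA, S.ind_neg hyB,
      S.W_one (U.erase x) y A B hyx hyA hyB, S.W_one U x A B hx hxA hxB,
      S.W_one U y A B hy hyA hyB]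
    nlinarith
  · rw [S.ind_pos hxA, S.ind_neg hxB, S.ind_neg hyA, S.ind_pos hyB,
      S.W_one' (U.erase x) y A B hyx hyA hyB, S.W_one U x A B hx hxA hxB,
      S.W_one' U y A B hy hyA hyB]
    nlinarith
  · rw [S.ind_pos hxA, S.ind_neg hxB, S.ind_neg hyA, S.ind_neg hyB,
      S.W_out (U.erase x) y A B hyA hyB, S.W_out U y A B hyA hyB]
    nlinarith
  · rw [S.ind_neg hxA, S.ind_pos hxB, S.ind_pos hyA, S.ind_pos hyB, Finset.erase_right_comm,
      S.W_one' (U.erase y) x A B hxy' hxA hxB, S.W_one' U x A B hx hxA hxB]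
    have h2 := S.W_ge U y A B hU hy hyA hyB
    nlinarith
  · rw [S.ind_neg hxA, S.ind_pos hxB, S.ind_pos hyA, S.ind_neg hyB,
      S.W_one (U.erase x) y A B hyx hyA hyB, S.W_one' U x A B hx hxA hxB,
      S.W_one U y A B hy hyA hyB]
    nlinarith
  · rw [S.ind_neg hxA, S.ind_pos hxB, S.ind_neg hyA, S.ind_pos hyB,
      S.W_one' (U.erase x) y A B hyx hyA hyB, S.W_one' U x A B hx hxA hxB,
      S.W_one' U y A B hy hyA hyB]
    nlinarith
  · rw [S.ind_neg hxA, S.ind_pos hxB, S.ind_neg hyA, S.ind_neg hyB,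
      S.W_out (U.erase x) y A B hyA hyB, S.W_out U y A B hyA hyB]
    nlinarith
  · rw [S.ind_neg hxA, S.ind_neg hxB, Finset.erase_right_comm,
      S.W_out (U.erase y) x A B hxA hxB, S.W_out U x A B hxA hxB]
    nlinarith
  · rw [S.ind_neg hxA, S.ind_neg hxB, Finset.erase_right_comm,
      S.W_out (U.erase y) x A B hxA hxB, S.W_out U x A B hxA hxB]
    nlinarith
  · rw [S.ind_neg hxA, S.ind_neg hxB, Finset.erase_right_comm,
      S.W_out (U.erase y) x A B hxA hxB, S.W_out U x A B hxA hxB]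
    nlinarith
  · rw [S.ind_neg hxA, S.ind_neg hxB, Finset.erase_right_comm,
      S.W_out (U.erase y) x A B hxA hxB, S.W_out U x A B hxA hxB]
    nlinarith

/-- the pair sum of `ind x ind x ind y ind y W` is at least nine times the square of the
co-weight -/
theorem pair_ge_sq (U : Finset E) (hU : U ⊆ S.board) (F : Finset Γ) (x y : E) (hx : x ∈ U)
    (hy : y ∈ U) (hxy : x ≠ y) :
    9 * (∑ A ∈ F, S.ind x A * S.ind y A * S.w U A) ^ 2 ≤
      ∑ A ∈ F, ∑ B ∈ F, S.ind x A * S.ind x B * (S.ind y A * S.ind y B) * S.W U A B := by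
  rw [sq, Finset.sum_mul_sum, Finset.mul_sum]
  refine Finset.sum_le_sum (fun A _ => ?_)
  rw [Finset.mul_sum]
  refine Finset.sum_le_sum (fun B _ => ?_)
  by_cases hxA : S.inc x A
  · by_cases hxB : S.inc x B
    · by_cases hyA : S.inc y A
      · by_cases hyB : S.inc y B
        · rw [S.ind_pos hxA, S.ind_pos hxB, S.ind_pos hyA, S.ind_pos hyB]
          have := S.W_big U x y A B hU hx hy hxy hxA hxB hyA hyB
          nlinarith
        · rw [S.ind_neg hyB]; simp
      · rw [S.ind_neg hyA]; simp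
    · rw [S.ind_neg hxB]; simp
  · rw [S.ind_neg hxA]; simp

omit [DecidableEq Γ] in
theorem quad_bound {lam T : ℝ} (hlam : 0 < lam) : -(1 / (2 * lam)) ≤ -2 * T + 2 * lam * T ^ 2 := by
  have h : 0 ≤ (2 * lam * T - 1) ^ 2 / (2 * lam) := by positivity
  have h2 : (2 * lam * T - 1) ^ 2 / (2 * lam) = 2 * lam * T ^ 2 - 2 * T + 1 / (2 * lam) := by
    field_simp; ring
  linarith

/-- the double sum of second differences -/
noncomputable def SD (U : Finset E) (F : Finset Γ) (x y : E) : ℝ :=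
  ∑ A ∈ F, ∑ B ∈ F,
    (S.W ((U.erase x).erase y) A B - S.W (U.erase x) A B - S.W (U.erase y) A B + S.W U A B)

/-- the part of the pair sum with `x` in exactly one clique and `y` in at least one -/
noncomputable def XO (U : Finset E) (F : Finset Γ) (x y : E) : ℝ :=
  ∑ A ∈ F, ∑ B ∈ F, S.W U A B * ((S.ind x A * (1 - S.ind x B) + S.ind x B * (1 - S.ind x A)) *
        (S.ind y A + S.ind y B - S.ind y A * S.ind y B))

/-- the co-weight -/
noncomputable def T2 (U : Finset E) (F : Finset Γ) (x y : E) : ℝ :=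
  ∑ A ∈ F, S.ind x A * S.ind y A * S.w U A

theorem XO_nonneg (U : Finset E) (F : Finset Γ) (x y : E) : 0 ≤ S.XO U F x y := by
  refine Finset.sum_nonneg (fun A _ => Finset.sum_nonneg (fun B _ => ?_))
  refine mul_nonneg (S.W_nonneg _ _ _) ?_
  by_cases hxA : S.inc x A <;> by_cases hxB : S.inc x B <;> by_cases hyA : S.inc y A <;>
    by_cases hyB : S.inc y B <;> simp [S.ind_pos, S.ind_neg, hxA, hxB, hyA, hyB]

theorem SD_ge (U : Finset E) (hU : U ⊆ S.board) (F : Finset Γ) (x y : E) (hx : x ∈ U)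
    (hy : y ∈ U) (hxy : x ≠ y) :
    12 / 5 * S.XO U F x y + 4 * (S.T2 U F x y) ^ 2 ≤ S.SD U F x y := by
  have h1 : 12 / 5 * S.XO U F x y + 4 / 9 *
      ∑ A ∈ F, ∑ B ∈ F, S.ind x A * S.ind x B * (S.ind y A * S.ind y B) * S.W U A B ≤
      S.SD U F x y := by
    unfold XO SD
    rw [Finset.mul_sum, Finset.mul_sum, ← Finset.sum_add_distrib]
    refine Finset.sum_le_sum (fun A _ => ?_)
    rw [Finset.mul_sum, Finset.mul_sum, ← Finset.sum_add_distrib]
    exact Finset.sum_le_sum (fun B _ => S.DD_ge U hU x y A B hx hy hxy)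
  have h2 := S.pair_ge_sq U hU F x y hx hy hxy
  have h3 : S.T2 U F x y = ∑ A ∈ F, S.ind x A * S.ind y A * S.w U A := rfl
  rw [← h3] at h2
  linarith

/-- `F` is reduced for the set `U` of unclaimed elements -/
def Reduced (lam : ℝ) (U : Finset E) (F : Finset Γ) : Prop :=
  ∀ A ∈ F, lam * (2 * ∑ B ∈ F, S.W U A B - S.W U A A) ≤ S.w U A

/-- the double sum with `y, z` in the first clique, `x` only in the second. -/
noncomputable def MM (U : Finset E) (F : Finset Γ) (x y z : E) : ℝ :=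
  ∑ A ∈ F, ∑ B ∈ F, S.ind y A * S.ind z A * ((1 - S.ind x A) * S.ind x B) * S.W U A B

/-- the same-clique sum -/
noncomputable def SM (U : Finset E) (F : Finset Γ) (y z : E) : ℝ :=
  ∑ A ∈ F, ∑ B ∈ F, S.W U A B * (S.ind y A * S.ind z A + S.ind y B * S.ind z B -
    S.ind y A * S.ind z A * (S.ind y B * S.ind z B))

theorem sum_swap (F : Finset Γ) (g : Γ → Γ → ℝ) :
    ∑ A ∈ F, ∑ B ∈ F, g A B = ∑ A ∈ F, ∑ B ∈ F, g B A := Finset.sum_comm

theorem SM_le (U : Finset E) (hU : U ⊆ S.board) (F : Finset Γ) (x y z : E) (hx : x ∈ U)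
    (lam : ℝ) (hlam : 0 < lam) (hred : S.Reduced lam U F) :
    lam * S.SM (U.erase x) F y z ≤
      ∑ A ∈ F, S.ind y A * S.ind z A * ((1 + 2 * S.ind x A) * S.w U A) +
        4 * lam * S.MM U F x y z := by
  -- first the diagonal reduction
  have h1 : S.SM (U.erase x) F y z ≤ ∑ A ∈ F, S.ind y A * S.ind z A *
      (2 * ∑ B ∈ F, S.W (U.erase x) A B - S.W (U.erase x) A A) := by
    have h2 : S.SM (U.erase x) F y z ≤
        ∑ A ∈ F, ∑ B ∈ F, S.W (U.erase x) A B * (S.ind y A * S.ind z A) +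
        ∑ A ∈ F, ∑ B ∈ F, S.W (U.erase x) A B * (S.ind y B * S.ind z B) -
        ∑ A ∈ F, ∑ B ∈ F, (if A = B then
          S.W (U.erase x) A B * (S.ind y A * S.ind z A) else 0) := by
      unfold SM
      rw [← Finset.sum_add_distrib, ← Finset.sum_sub_distrib]
      refine Finset.sum_le_sum (fun A _ => ?_)
      rw [← Finset.sum_add_distrib, ← Finset.sum_sub_distrib]
      refine Finset.sum_le_sum (fun B _ => ?_)
      have hW := S.W_nonneg (U.erase x) A B
      by_cases hAB : A = B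
      · subst hAB
        rw [if_pos rfl]
        by_cases hyA : S.inc y A <;> by_cases hzA : S.inc z A <;>
          simp [S.ind_pos, S.ind_neg, hyA, hzA]
      · rw [if_neg hAB]
        by_cases hyA : S.inc y A <;> by_cases hzA : S.inc z A <;>
          by_cases hyB : S.inc y B <;> by_cases hzB : S.inc z B <;>
          simp [S.ind_pos, S.ind_neg, hyA, hzA, hyB, hzB, hW]
    have h3 : ∑ A ∈ F, ∑ B ∈ F, S.W (U.erase x) A B * (S.ind y B * S.ind z B) =
        ∑ A ∈ F, ∑ B ∈ F, S.W (U.erase x) A B * (S.ind y A * S.ind z A) := by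
      rw [sum_swap F (fun A B => S.W (U.erase x) A B * (S.ind y B * S.ind z B))]
      refine Finset.sum_congr rfl (fun A _ => Finset.sum_congr rfl (fun B _ => ?_))
      rw [S.W_symm]
    have h4 : ∑ A ∈ F, ∑ B ∈ F, (if A = B then
          S.W (U.erase x) A B * (S.ind y A * S.ind z A) else 0) =
        ∑ A ∈ F, S.W (U.erase x) A A * (S.ind y A * S.ind z A) := by
      refine Finset.sum_congr rfl (fun A hA => ?_)
      rw [Finset.sum_ite_eq F A (fun B => S.W (U.erase x) A B * (S.ind y A * S.ind z A)),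
        if_pos hA]
    rw [h3, h4] at h2
    refine h2.trans (le_of_eq ?_)
    rw [← Finset.sum_add_distrib, ← Finset.sum_sub_distrib]
    refine Finset.sum_congr rfl (fun A _ => ?_)
    rw [← Finset.sum_mul]; ring
  have h5 : ∀ A ∈ F, 2 * ∑ B ∈ F, S.W (U.erase x) A B - S.W (U.erase x) A A ≤
      (1 + 2 * S.ind x A) * (2 * ∑ B ∈ F, S.W U A B - S.W U A A) +
        4 * ((1 - S.ind x A) * ∑ B ∈ F, S.ind x B * S.W U A B) := by
    intro A hA
    by_cases hxA : S.inc x A
    · rw [S.ind_pos hxA]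
      have hg : ∀ B ∈ F, 0 ≤ 3 * S.W U A B - S.W (U.erase x) A B := by
        intro B _
        by_cases hxB : S.inc x B
        · linarith [S.W_le U x A B hU hx hxA hxB]
        · rw [S.W_one U x A B hx hxA hxB]; linarith
      have h6 := Finset.single_le_sum hg hA
      rw [Finset.sum_sub_distrib, ← Finset.mul_sum] at h6
      have h7 := hg A hA
      have h8 : 0 ≤ ∑ B ∈ F, (3 * S.W U A B - S.W (U.erase x) A B) := Finset.sum_nonneg hg
      rw [Finset.sum_sub_distrib, ← Finset.mul_sum] at h8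
      linarith
    · rw [S.ind_neg hxA]
      have h6 : ∑ B ∈ F, S.W (U.erase x) A B =
          ∑ B ∈ F, S.W U A B + 2 * ∑ B ∈ F, S.ind x B * S.W U A B := by
        rw [Finset.mul_sum, ← Finset.sum_add_distrib]
        refine Finset.sum_congr rfl (fun B _ => ?_)
        by_cases hxB : S.inc x B
        · rw [S.W_one' U x A B hx hxA hxB, S.ind_pos hxB]; ring
        · rw [S.W_out U x A B hxA hxB, S.ind_neg hxB]; ring
      rw [h6, S.W_out U x A A hxA hxA]
      linarith
  have h6 : lam * S.SM (U.erase x) F y z ≤ ∑ A ∈ F, lam * (S.ind y A * S.ind z A *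
      (2 * ∑ B ∈ F, S.W (U.erase x) A B - S.W (U.erase x) A A)) := by
    rw [← Finset.mul_sum]
    exact mul_le_mul_of_nonneg_left h1 hlam.le
  refine h6.trans ?_
  unfold MM
  rw [Finset.mul_sum, ← Finset.sum_add_distrib]
  refine Finset.sum_le_sum (fun A hA => ?_)
  have h7 := h5 A hA
  have h8 := hred A hA
  have hyz : 0 ≤ S.ind y A * S.ind z A := mul_nonneg (S.ind_nonneg _ _) (S.ind_nonneg _ _)
  have h9 : ∑ B ∈ F, S.ind y A * S.ind z A * ((1 - S.ind x A) * S.ind x B) * S.W U A B =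
      S.ind y A * S.ind z A * ((1 - S.ind x A) * ∑ B ∈ F, S.ind x B * S.W U A B) := by
    rw [Finset.mul_sum, Finset.mul_sum]
    exact Finset.sum_congr rfl (fun B _ => by ring)
  rw [h9]
  have hxn := S.ind_nonneg x A
  have h10 : lam * (2 * ∑ B ∈ F, S.W (U.erase x) A B - S.W (U.erase x) A A) ≤
      (1 + 2 * S.ind x A) * S.w U A +
        4 * lam * ((1 - S.ind x A) * ∑ B ∈ F, S.ind x B * S.W U A B) := by
    have h11 := mul_le_mul_of_nonneg_left h7 hlam.le
    have h12 := mul_le_mul_of_nonneg_left h8 (show 0 ≤ 1 + 2 * S.ind x A by linarith)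
    nlinarith
  have h13 := mul_le_mul_of_nonneg_left h10 hyz
  nlinarith

theorem MM_le (U : Finset E) (F : Finset Γ) (x y z : E) :
    4 * S.MM U F x y z ≤ 6 / 5 * (S.XO U F x y + S.XO U F x z) := by
  have h1 : 4 * S.MM U F x y z = ∑ A ∈ F, ∑ B ∈ F,
      2 * (S.W U A B * (S.ind y A * S.ind z A * ((1 - S.ind x A) * S.ind x B) +
        S.ind y B * S.ind z B * ((1 - S.ind x B) * S.ind x A))) := by
    have h2 : S.MM U F x y z = ∑ A ∈ F, ∑ B ∈ F,
        S.W U A B * (S.ind y B * S.ind z B * ((1 - S.ind x B) * S.ind x A)) := by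
      unfold MM
      rw [sum_swap]
      refine Finset.sum_congr rfl (fun A _ => Finset.sum_congr rfl (fun B _ => ?_))
      rw [S.W_symm U B A]; ring
    have h3 : 4 * S.MM U F x y z = 2 * S.MM U F x y z + 2 * S.MM U F x y z := by ring
    rw [h3]
    nth_rewrite 2 [h2]
    unfold MM
    rw [Finset.mul_sum, Finset.mul_sum, ← Finset.sum_add_distrib]
    refine Finset.sum_congr rfl (fun A _ => ?_)
    rw [Finset.mul_sum, Finset.mul_sum, ← Finset.sum_add_distrib]
    refine Finset.sum_congr rfl (fun B _ => ?_)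
    ring
  rw [h1]
  unfold XO
  rw [← Finset.sum_add_distrib, Finset.mul_sum]
  refine Finset.sum_le_sum (fun A _ => ?_)
  rw [← Finset.sum_add_distrib, Finset.mul_sum]
  refine Finset.sum_le_sum (fun B _ => ?_)
  have hW := S.W_nonneg U A B
  by_cases hxA : S.inc x A <;> by_cases hxB : S.inc x B <;> by_cases hyA : S.inc y A <;>
    by_cases hyB : S.inc y B <;> by_cases hzA : S.inc z A <;> by_cases hzB : S.inc z B <;>
    simp [S.ind_pos, S.ind_neg, hxA, hxB, hyA, hyB, hzA, hzB] <;> nlinarith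

end Sys

end Clique12
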