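import Mathlib
import Pool.Agent.Helper61.Clique12.Round

/-!
The round lemma for an abstract `(1:2)` system: one full round costs at most `1/lam`.
-/

open Finset

namespace Clique12

namespace Sys

variable {E Γ : Type*} [DecidableEq E] [DecidableEq Γ] (S : Sys E Γ)

theorem sum_alive (F F' : Finset Γ) (al : Γ → ℝ) (h1 : ∀ A ∈ F', A ∈ F ∧ al A = 1)
    (h0 : ∀ A ∈ F, A ∉ F' → al A = 0) (g : Γ → ℝ) :
    ∑ A ∈ F', g A = ∑ A ∈ F, al A * g A := by
  rw [← Finset.sum_subset (s₁ := F') (s₂ := F) (fun A hA => (h1 A hA).1)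
    (fun A hA hA' => by rw [h0 A hA hA', zero_mul])]
  exact Finset.sum_congr rfl (fun A hA => by rw [(h1 A hA).2, one_mul])

theorem pot_alive (lam : ℝ) (U U' : Finset E) (F F' : Finset Γ) (al : Γ → ℝ)
    (h1 : ∀ A ∈ F', A ∈ F ∧ al A = 1) (h0 : ∀ A ∈ F, A ∉ F' → al A = 0)
    (hw : ∀ A ∈ F', S.w U' A = S.w U A)
    (hW : ∀ A ∈ F', ∀ B ∈ F', S.W U' A B = S.W U A B) :
    S.pot lam U' F' = ∑ A ∈ F, al A * S.w U A -
      lam * ∑ A ∈ F, ∑ B ∈ F, al A * (al B * S.W U A B) := by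
  unfold pot
  rw [Finset.sum_congr rfl hw]
  have h2 : ∑ A ∈ F', ∑ B ∈ F', S.W U' A B = ∑ A ∈ F', ∑ B ∈ F', S.W U A B :=
    Finset.sum_congr rfl (fun A hA => Finset.sum_congr rfl (fun B hB => hW A hA B hB))
  rw [h2, sum_alive F F' al h1 h0, sum_alive F F' al h1 h0]
  congr 2
  refine Finset.sum_congr rfl (fun A _ => ?_)
  rw [sum_alive F F' al h1 h0, Finset.mul_sum]

/-- slack sum -/
noncomputable def SL (U : Finset E) (F : Finset Γ) (y : E) : ℝ :=
  ∑ A ∈ F, ∑ B ∈ F, S.ind y A * S.ind y B * ((3 * S.W U A B - S.W (U.erase y) A B) / 2)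

theorem SL_nonneg (U : Finset E) (hU : U ⊆ S.board) (F : Finset Γ) (y : E) (hy : y ∈ U) :
    0 ≤ S.SL U F y := by
  refine Finset.sum_nonneg (fun A _ => Finset.sum_nonneg (fun B _ => ?_))
  by_cases hA : S.inc y A
  · by_cases hB : S.inc y B
    · rw [S.ind_pos hA, S.ind_pos hB]
      linarith [S.W_le U y A B hU hy hA hB]
    · rw [S.ind_neg hB]; simp
  · rw [S.ind_neg hA]; simp

theorem SD_eq (U : Finset E) (F : Finset Γ) (x y : E) :
    ∑ A ∈ F, ∑ B ∈ F, (S.W ((U.erase x).erase y) A B - S.W (U.erase x) A B) =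
      S.SD U F x y + ∑ A ∈ F, ∑ B ∈ F, (S.W (U.erase y) A B - S.W U A B) := by
  unfold SD
  rw [← Finset.sum_add_distrib]
  refine Finset.sum_congr rfl (fun A _ => ?_)
  rw [← Finset.sum_add_distrib]
  exact Finset.sum_congr rfl (fun B _ => by ring)

theorem round0 (U : Finset E) (F : Finset Γ) (x : E) (lam : ℝ) :
    S.pot lam (U.erase x) F = S.pot lam U F + 2 * S.gain lam U F x := by
  unfold gain; ring

theorem round1 (U : Finset E) (hU : U ⊆ S.board) (F F' : Finset Γ) (x y : E) (hx : x ∈ U)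
    (hy : y ∈ U) (hxy : x ≠ y) (lam : ℝ) (hlam : 0 < lam)
    (hF' : ∀ A, A ∈ F' ↔ A ∈ F ∧ ¬ S.inc y A) :
    S.pot lam U F + (2 * S.gain lam U F x - S.gain lam U F y) - 1 / (2 * lam) ≤
      S.pot lam ((U.erase x).erase y) F' := by
  have hyx : y ∈ U.erase x := Finset.mem_erase.2 ⟨hxy.symm, hy⟩
  have hUx : U.erase x ⊆ S.board := (Finset.erase_subset _ _).trans hU
  have h1 : ∀ A ∈ F', A ∈ F ∧ (1 - S.ind y A) = 1 := by
    intro A hA
    rw [hF'] at hA
    exact ⟨hA.1, by rw [S.ind_neg hA.2]; ring⟩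
  have h0 : ∀ A ∈ F, A ∉ F' → (1 - S.ind y A) = 0 := by
    intro A hA hA'
    rw [hF'] at hA'
    have : S.inc y A := by
      by_contra h; exact hA' ⟨hA, h⟩
    rw [S.ind_pos this]; ring
  rw [S.pot_alive lam (U.erase x) ((U.erase x).erase y) F F' (fun A => 1 - S.ind y A) h1 h0
    (fun A hA => S.w_out _ _ _ ((hF' A).1 hA).2)
    (fun A hA B hB => S.W_out _ _ _ _ ((hF' A).1 hA).2 ((hF' B).1 hB).2)]
  -- linear part
  have hlin : ∑ A ∈ F, (1 - S.ind y A) * S.w (U.erase x) A =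
      ∑ A ∈ F, S.w U A + 2 * ∑ A ∈ F, S.ind x A * S.w U A - ∑ A ∈ F, S.ind y A * S.w U A -
        2 * S.T2 U F x y := by
    unfold T2
    rw [Finset.mul_sum, Finset.mul_sum, ← Finset.sum_add_distrib, ← Finset.sum_sub_distrib,
      ← Finset.sum_sub_distrib]
    refine Finset.sum_congr rfl (fun A _ => ?_)
    rw [S.w_erase U x A hx]; ring
  -- quadratic part
  have hquad : ∑ A ∈ F, ∑ B ∈ F, (1 - S.ind y A) * ((1 - S.ind y B) * S.W (U.erase x) A B) =
      ∑ A ∈ F, ∑ B ∈ F, S.W (U.erase x) A B -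
        (∑ A ∈ F, ∑ B ∈ F, (S.W ((U.erase x).erase y) A B - S.W (U.erase x) A B)) / 2 -
        S.SL (U.erase x) F y := by
    unfold SL
    rw [Finset.sum_div, ← Finset.sum_sub_distrib, ← Finset.sum_sub_distrib]
    refine Finset.sum_congr rfl (fun A _ => ?_)
    rw [Finset.sum_div, ← Finset.sum_sub_distrib, ← Finset.sum_sub_distrib]
    refine Finset.sum_congr rfl (fun B _ => ?_)
    rw [S.half_diff (U.erase x) y A B hyx]; ring
  rw [hlin, hquad, S.SD_eq, S.gain_eq lam U F x hx, S.gain_eq lam U F y hy]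
  have hSL := S.SL_nonneg (U.erase x) hUx F y hyx
  have hSD := S.SD_ge U hU F x y hx hy hxy
  have hXO := S.XO_nonneg U F x y
  have hq := quad_bound (lam := lam) (T := S.T2 U F x y) hlam
  unfold pot
  have hx' : ∑ A ∈ F, ∑ B ∈ F, (S.W (U.erase x) A B - S.W U A B) =
      ∑ A ∈ F, ∑ B ∈ F, S.W (U.erase x) A B - ∑ A ∈ F, ∑ B ∈ F, S.W U A B := by
    simp only [Finset.sum_sub_distrib]
  rw [hx']
  have h2 := mul_le_mul_of_nonneg_left hSD hlam.le
  have h3 := mul_nonneg hlam.le hSL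
  have h4 := mul_nonneg hlam.le hXO
  nlinarith

theorem round2 (U : Finset E) (hU : U ⊆ S.board) (F F' : Finset Γ) (x y z : E) (hx : x ∈ U)
    (hy : y ∈ U) (hz : z ∈ U) (hxy : x ≠ y) (hxz : x ≠ z) (hyz : y ≠ z) (lam : ℝ) (hlam : 0 < lam)
    (hred : S.Reduced lam U F)
    (hF' : ∀ A, A ∈ F' ↔ A ∈ F ∧ ¬ S.inc y A ∧ ¬ S.inc z A) :
    S.pot lam U F + (2 * S.gain lam U F x - S.gain lam U F y - S.gain lam U F z) - 1 / lam ≤
      S.pot lam (((U.erase x).erase y).erase z) F' := by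
  have hyx : y ∈ U.erase x := Finset.mem_erase.2 ⟨hxy.symm, hy⟩
  have hzx : z ∈ U.erase x := Finset.mem_erase.2 ⟨hxz.symm, hz⟩
  have hUx : U.erase x ⊆ S.board := (Finset.erase_subset _ _).trans hU
  have h1 : ∀ A ∈ F', A ∈ F ∧ (1 - S.ind y A) * (1 - S.ind z A) = 1 := by
    intro A hA
    rw [hF'] at hA
    exact ⟨hA.1, by rw [S.ind_neg hA.2.1, S.ind_neg hA.2.2]; ring⟩
  have h0 : ∀ A ∈ F, A ∉ F' → (1 - S.ind y A) * (1 - S.ind z A) = 0 := by
    intro A hA hA'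
    rw [hF'] at hA'
    by_cases h : S.inc y A
    · rw [S.ind_pos h]; ring
    · have h' : S.inc z A := by
        by_contra h'; exact hA' ⟨hA, h, h'⟩
      rw [S.ind_pos h']; ring
  rw [S.pot_alive lam (U.erase x) (((U.erase x).erase y).erase z) F F'
    (fun A => (1 - S.ind y A) * (1 - S.ind z A)) h1 h0
    (fun A hA => by
      rw [S.w_out _ _ _ ((hF' A).1 hA).2.2, S.w_out _ _ _ ((hF' A).1 hA).2.1])
    (fun A hA B hB => by
      rw [S.W_out _ _ _ _ ((hF' A).1 hA).2.2 ((hF' B).1 hB).2.2,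
        S.W_out _ _ _ _ ((hF' A).1 hA).2.1 ((hF' B).1 hB).2.1])]
  -- linear part
  have hlin : ∑ A ∈ F, (1 - S.ind y A) * (1 - S.ind z A) * S.w (U.erase x) A =
      ∑ A ∈ F, S.w U A + 2 * ∑ A ∈ F, S.ind x A * S.w U A - ∑ A ∈ F, S.ind y A * S.w U A -
        ∑ A ∈ F, S.ind z A * S.w U A - 2 * S.T2 U F x y - 2 * S.T2 U F x z +
        ∑ A ∈ F, S.ind y A * S.ind z A * ((1 + 2 * S.ind x A) * S.w U A) := by
    unfold T2
    rw [Finset.mul_sum, Finset.mul_sum, Finset.mul_sum, ← Finset.sum_add_distrib,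
      ← Finset.sum_sub_distrib, ← Finset.sum_sub_distrib, ← Finset.sum_sub_distrib,
      ← Finset.sum_sub_distrib, ← Finset.sum_add_distrib]
    refine Finset.sum_congr rfl (fun A _ => ?_)
    rw [S.w_erase U x A hx]; ring
  -- cross sum
  have hcr := S.cross (U.erase x) F y z (S.ind y) (S.ind z) hUx hyx hzx
    (fun A h => S.ind_pos h) (fun A h => S.ind_neg h) (fun A h => S.ind_pos h)
    (fun A h => S.ind_neg h)
  set CR := ∑ A ∈ F, ∑ B ∈ F, S.W (U.erase x) A B *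
    (S.ind y A * (1 - S.ind z A) * (S.ind z B * (1 - S.ind y B))) with hCR
  have hCR' : CR = ∑ A ∈ F, ∑ B ∈ F, S.W (U.erase x) A B *
    (S.ind y B * (1 - S.ind z B) * (S.ind z A * (1 - S.ind y A))) := by
    rw [hCR, sum_swap]
    refine Finset.sum_congr rfl (fun A _ => Finset.sum_congr rfl (fun B _ => ?_))
    rw [S.W_symm]
  have hquad : ∑ A ∈ F, ∑ B ∈ F, (1 - S.ind y A) * (1 - S.ind z A) *
      ((1 - S.ind y B) * (1 - S.ind z B) * S.W (U.erase x) A B) =
      ∑ A ∈ F, ∑ B ∈ F, S.W (U.erase x) A B -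
        (∑ A ∈ F, ∑ B ∈ F, (S.W ((U.erase x).erase y) A B - S.W (U.erase x) A B)) / 2 -
        S.SL (U.erase x) F y -
        (∑ A ∈ F, ∑ B ∈ F, (S.W ((U.erase x).erase z) A B - S.W (U.erase x) A B)) / 2 -
        S.SL (U.erase x) F z + CR + CR + S.SM (U.erase x) F y z := by
    nth_rewrite 2 [hCR']
    rw [hCR]
    unfold SL SM
    rw [Finset.sum_div, Finset.sum_div, ← Finset.sum_sub_distrib, ← Finset.sum_sub_distrib,
      ← Finset.sum_sub_distrib, ← Finset.sum_sub_distrib, ← Finset.sum_add_distrib,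
      ← Finset.sum_add_distrib, ← Finset.sum_add_distrib]
    refine Finset.sum_congr rfl (fun A _ => ?_)
    rw [Finset.sum_div, Finset.sum_div, ← Finset.sum_sub_distrib, ← Finset.sum_sub_distrib,
      ← Finset.sum_sub_distrib, ← Finset.sum_sub_distrib, ← Finset.sum_add_distrib,
      ← Finset.sum_add_distrib, ← Finset.sum_add_distrib]
    refine Finset.sum_congr rfl (fun B _ => ?_)
    rw [S.half_diff (U.erase x) y A B hyx, S.half_diff (U.erase x) z A B hzx]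
    by_cases hyA : S.inc y A <;> by_cases hyB : S.inc y B <;> by_cases hzA : S.inc z A <;>
      by_cases hzB : S.inc z B <;> simp only [S.ind_pos, S.ind_neg, hyA, hyB, hzA, hzB,
        not_false_eq_true, not_true_eq_false] <;> ring
  rw [hlin, hquad, S.SD_eq, S.SD_eq, S.gain_eq lam U F x hx, S.gain_eq lam U F y hy,
    S.gain_eq lam U F z hz]
  have hSDy := S.SD_ge U hU F x y hx hy hxy
  have hSDz := S.SD_ge U hU F x z hx hz hxz
  have hqy := quad_bound (lam := lam) (T := S.T2 U F x y) hlam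
  have hqz := quad_bound (lam := lam) (T := S.T2 U F x z) hlam
  have hSM := S.SM_le U hU F x y z hx lam hlam hred
  have hMM := S.MM_le U F x y z
  have hhalf : 1 / (2 * lam) + 1 / (2 * lam) = 1 / lam := by
    field_simp; ring
  rw [← hhalf]
  unfold pot
  have hx' : ∑ A ∈ F, ∑ B ∈ F, (S.W (U.erase x) A B - S.W U A B) =
      ∑ A ∈ F, ∑ B ∈ F, S.W (U.erase x) A B - ∑ A ∈ F, ∑ B ∈ F, S.W U A B := by
    simp only [Finset.sum_sub_distrib]
  rw [hx']
  have hcr2 : 2 * CR ≤ S.SL (U.erase x) F y + S.SL (U.erase x) F z := hcr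
  have h2 := mul_le_mul_of_nonneg_left hSDy hlam.le
  have h3 := mul_le_mul_of_nonneg_left hSDz hlam.le
  have h4 := mul_le_mul_of_nonneg_left hcr2 hlam.le
  have h5 := mul_le_mul_of_nonneg_left hMM hlam.le
  nlinarith

end Sys

end Clique12
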