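import Mathlib
import Pool.Agent.Helper61.Clique12.RoundLemma

/-!
The strategy for Maker in an abstract `(1:2)` system.
-/

open Finset

namespace Clique12

namespace Sys

variable {E Γ : Type*} [DecidableEq E] [DecidableEq Γ] (S : Sys E Γ)

open Classical in
/-- the sets of the family `F₀` that Breaker has not touched -/
noncomputable def alive (F₀ : Finset Γ) (B : Finset E) : Finset Γ :=
  F₀.filter (fun A => ∀ e ∈ B, ¬ S.inc e A)

theorem mem_alive {F₀ : Finset Γ} {B : Finset E} {A : Γ} :
    A ∈ S.alive F₀ B ↔ A ∈ F₀ ∧ ∀ e ∈ B, ¬ S.inc e A := by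
  classical
  unfold alive
  rw [Finset.mem_filter]

theorem exists_best (lam : ℝ) (U : Finset E) (FF : Finset Γ) :
    ∃ F ⊆ FF, ∀ F' ⊆ FF, S.pot lam U F' ≤ S.pot lam U F := by
  obtain ⟨F, hF, h⟩ := Finset.exists_max_image FF.powerset (S.pot lam U)
    ⟨∅, Finset.empty_mem_powerset _⟩
  exact ⟨F, Finset.mem_powerset.1 hF, fun F' hF' => h F' (Finset.mem_powerset.2 hF')⟩

noncomputable def best (lam : ℝ) (U : Finset E) (FF : Finset Γ) : Finset Γ :=
  (S.exists_best lam U FF).choose

theorem best_subset (lam : ℝ) (U : Finset E) (FF : Finset Γ) : S.best lam U FF ⊆ FF :=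
  (S.exists_best lam U FF).choose_spec.1

theorem best_max (lam : ℝ) (U : Finset E) (FF F' : Finset Γ) (h : F' ⊆ FF) :
    S.pot lam U F' ≤ S.pot lam U (S.best lam U FF) :=
  (S.exists_best lam U FF).choose_spec.2 F' h

theorem best_reduced (lam : ℝ) (U : Finset E) (FF : Finset Γ) :
    S.Reduced lam U (S.best lam U FF) := by
  intro A hA
  set F := S.best lam U FF with hF
  have h1 := S.best_max lam U FF (F.erase A)
    ((Finset.erase_subset _ _).trans (S.best_subset lam U FF))
  rw [← hF] at h1
  have h2 : ∑ B ∈ F, S.w U B = S.w U A + ∑ B ∈ F.erase A, S.w U B :=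
    (Finset.add_sum_erase F _ hA).symm
  have h3 : ∀ C, ∑ B ∈ F, S.W U C B = S.W U C A + ∑ B ∈ F.erase A, S.W U C B :=
    fun C => (Finset.add_sum_erase F _ hA).symm
  have h4 : ∑ C ∈ F, ∑ B ∈ F, S.W U C B =
      ∑ B ∈ F, S.W U A B + ∑ C ∈ F.erase A, ∑ B ∈ F, S.W U C B :=
    (Finset.add_sum_erase F _ hA).symm
  have h5 : ∑ C ∈ F.erase A, ∑ B ∈ F, S.W U C B =
      ∑ C ∈ F.erase A, S.W U A C + ∑ C ∈ F.erase A, ∑ B ∈ F.erase A, S.W U C B := by
    rw [← Finset.sum_add_distrib]
    refine Finset.sum_congr rfl (fun C _ => ?_)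
    rw [h3 C, S.W_symm U C A]
  have h6 := h3 A
  unfold pot at h1
  rw [h2, h4, h5] at h1
  have h7 : ∑ B ∈ F.erase A, S.W U A B = ∑ B ∈ F, S.W U A B - S.W U A A := by linarith
  rw [h7] at h1
  nlinarith

theorem best_gain_nonneg (lam : ℝ) (hlam : 0 < lam) (U : Finset E) (hU : U ⊆ S.board)
    (FF : Finset Γ) (v : E) (hv : v ∈ U) : 0 ≤ S.gain lam U (S.best lam U FF) v := by
  classical
  set F := S.best lam U FF with hF
  set F' := F.filter (fun A => ¬ S.inc v A) with hF'
  have h1 := S.best_max lam U FF F' ((Finset.filter_subset _ _).trans (S.best_subset lam U FF))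
  rw [← hF] at h1
  rw [S.pot_alive lam U U F F' (fun A => 1 - S.ind v A)
    (fun A hA => by
      rw [hF', Finset.mem_filter] at hA
      exact ⟨hA.1, by rw [S.ind_neg hA.2]; ring⟩)
    (fun A hA hA' => by
      rw [hF', Finset.mem_filter] at hA'
      have : S.inc v A := by
        by_contra h; exact hA' ⟨hA, h⟩
      rw [S.ind_pos this]; ring)
    (fun _ _ => rfl) (fun _ _ _ _ => rfl)] at h1
  have hlin : ∑ A ∈ F, (1 - S.ind v A) * S.w U A =
      ∑ A ∈ F, S.w U A - ∑ A ∈ F, S.ind v A * S.w U A := by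
    rw [← Finset.sum_sub_distrib]
    exact Finset.sum_congr rfl (fun A _ => by ring)
  have hquad : ∑ A ∈ F, ∑ B ∈ F, (1 - S.ind v A) * ((1 - S.ind v B) * S.W U A B) =
      ∑ A ∈ F, ∑ B ∈ F, S.W U A B -
        (∑ A ∈ F, ∑ B ∈ F, (S.W (U.erase v) A B - S.W U A B)) / 2 -
        S.SL U F v := by
    unfold SL
    rw [Finset.sum_div, ← Finset.sum_sub_distrib, ← Finset.sum_sub_distrib]
    refine Finset.sum_congr rfl (fun A _ => ?_)
    rw [Finset.sum_div, ← Finset.sum_sub_distrib, ← Finset.sum_sub_distrib]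
    refine Finset.sum_congr rfl (fun B _ => ?_)
    rw [S.half_diff U v A B hv]; ring
  rw [hlin, hquad] at h1
  rw [S.gain_eq lam U F v hv]
  have hSL := mul_nonneg hlam.le (S.SL_nonneg U hU F v hv)
  unfold pot at h1
  nlinarith

/-- the maximal potential of a subfamily -/
noncomputable def mp (lam : ℝ) (U : Finset E) (FF : Finset Γ) : ℝ :=
  S.pot lam U (S.best lam U FF)

theorem round_mp (lam : ℝ) (hlam : 0 < lam) (U : Finset E) (hU : U ⊆ S.board)
    (F₀ : Finset Γ) (B T : Finset E) (x : E) (hx : x ∈ U)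
    (hmax : ∀ v ∈ U, S.gain lam U (S.best lam U (S.alive F₀ B)) v ≤
      S.gain lam U (S.best lam U (S.alive F₀ B)) x)
    (hT : T ⊆ U.erase x) (hT2 : T.card ≤ 2) :
    S.mp lam U (S.alive F₀ B) - (T.card : ℝ) / (2 * lam) ≤
      S.mp lam ((U.erase x) \ T) (S.alive F₀ (B ∪ T)) := by
  classical
  set F := S.best lam U (S.alive F₀ B) with hF
  set F' := F.filter (fun A => ∀ e ∈ T, ¬ S.inc e A) with hF'
  have hsub : F' ⊆ S.alive F₀ (B ∪ T) := by
    intro A hA
    rw [hF', Finset.mem_filter] at hA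
    have h1 := S.best_subset lam U (S.alive F₀ B) hA.1
    rw [S.mem_alive] at h1 ⊢
    refine ⟨h1.1, fun e he => ?_⟩
    rw [Finset.mem_union] at he
    rcases he with he | he
    · exact h1.2 e he
    · exact hA.2 e he
  have hbest := S.best_max lam ((U.erase x) \ T) (S.alive F₀ (B ∪ T)) F' hsub
  refine le_trans ?_ hbest
  show S.pot lam U F - _ ≤ _
  have hgx := S.best_gain_nonneg lam hlam U hU (S.alive F₀ B) x hx
  rw [← hF] at hgx
  have hred := S.best_reduced lam U (S.alive F₀ B)
  rw [← hF] at hred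
  have hcase : T.card = 0 ∨ T.card = 1 ∨ T.card = 2 := by omega
  rcases hcase with h0 | h1 | h2
  · rw [Finset.card_eq_zero] at h0
    subst h0
    have hFF : F' = F := by
      rw [hF', Finset.filter_true_of_mem]
      intro A _ e he; simp at he
    rw [hFF, Finset.sdiff_empty, S.round0]
    simp only [Finset.card_empty, Nat.cast_zero, zero_div, sub_zero]
    linarith
  · rw [Finset.card_eq_one] at h1
    obtain ⟨y, rfl⟩ := h1
    have hyx : y ∈ U.erase x := hT (Finset.mem_singleton_self y)
    rw [Finset.mem_erase] at hyx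
    have hUe : (U.erase x) \ {y} = (U.erase x).erase y := Finset.sdiff_singleton_eq_erase y _
    rw [hUe]
    have h3 := S.round1 U hU F F' x y hx hyx.2 hyx.1.symm lam hlam (fun A => by
      rw [hF', Finset.mem_filter]; simp)
    have h4 := hmax y hyx.2
    rw [Finset.card_singleton, Nat.cast_one]
    linarith
  · rw [Finset.card_eq_two] at h2
    obtain ⟨y, z, hyz, rfl⟩ := h2
    have hyx : y ∈ U.erase x := hT (by simp)
    have hzx : z ∈ U.erase x := hT (by simp)
    rw [Finset.mem_erase] at hyx hzx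
    have hUe : (U.erase x) \ {y, z} = ((U.erase x).erase y).erase z := by
      ext e
      simp only [Finset.mem_sdiff, Finset.mem_erase, Finset.mem_insert, Finset.mem_singleton]
      tauto
    rw [hUe]
    have h3 := S.round2 U hU F F' x y z hx hyx.2 hzx.2 hyx.1.symm hzx.1.symm hyz lam hlam hred
      (fun A => by
      rw [hF', Finset.mem_filter]; simp)
    have h4 := hmax y hyx.2
    have h5 := hmax z hzx.2
    rw [Finset.card_pair hyz]
    have h6 : ((2 : ℕ) : ℝ) / (2 * lam) = 1 / lam := by
      push_cast; field_simp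
    rw [h6]
    linarith

theorem exists_argmax (lam : ℝ) (U : Finset E) (F : Finset Γ) (hU : U.Nonempty) :
    ∃ x ∈ U, ∀ v ∈ U, S.gain lam U F v ≤ S.gain lam U F x :=
  Finset.exists_max_image U (S.gain lam U F) hU

open Classical in
/-- Maker's positional strategy -/
noncomputable def strat [Nonempty E] (lam : ℝ) (F₀ : Finset Γ) (M B : Finset E) : E :=
  if h : (S.board \ (M ∪ B)).Nonempty then
    (S.exists_argmax lam (S.board \ (M ∪ B))
      (S.best lam (S.board \ (M ∪ B)) (S.alive F₀ B)) h).choose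
  else Classical.arbitrary E

theorem strat_spec [Nonempty E] (lam : ℝ) (F₀ : Finset Γ) (M B : Finset E)
    (h : (S.board \ (M ∪ B)).Nonempty) :
    S.strat lam F₀ M B ∈ S.board \ (M ∪ B) ∧
    ∀ v ∈ S.board \ (M ∪ B),
      S.gain lam (S.board \ (M ∪ B)) (S.best lam (S.board \ (M ∪ B)) (S.alive F₀ B)) v ≤
      S.gain lam (S.board \ (M ∪ B)) (S.best lam (S.board \ (M ∪ B)) (S.alive F₀ B))
        (S.strat lam F₀ M B) := by
  unfold strat
  rw [dif_pos h]
  exact (S.exists_argmax lam (S.board \ (M ∪ B))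
      (S.best lam (S.board \ (M ∪ B)) (S.alive F₀ B)) h).choose_spec

/-- The abstract theorem: if the initial potential exceeds `|board| / (2 lam)`, then against any
play in which Breaker claims at most two elements per turn, the strategy `strat` fully claims a
set of the family. -/
theorem strat_wins [Nonempty E] (lam : ℝ) (hlam : 0 < lam) (F₀ : Finset Γ)
    (hinit : (S.board.card : ℝ) / (2 * lam) < S.pot lam S.board F₀)
    (p : ℕ → Finset E × Finset E) (hp0 : p 0 = (∅, ∅))
    (hp : ∀ t, (S.board \ ((p t).1 ∪ (p t).2)).Nonempty →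
      ∃ T ⊆ S.board \ (insert (S.strat lam F₀ (p t).1 (p t).2) (p t).1 ∪ (p t).2), T.card ≤ 2 ∧
        p (t + 1) = (insert (S.strat lam F₀ (p t).1 (p t).2) (p t).1, (p t).2 ∪ T)) :
    ∃ t, ∃ A ∈ F₀, ∀ e ∈ S.board, S.inc e A → e ∈ (p t).1 := by
  classical
  -- the invariant
  have hinv : ∀ t, (∃ s ≤ t, S.board \ ((p s).1 ∪ (p s).2) = ∅ ∧
        0 < S.mp lam (S.board \ ((p s).1 ∪ (p s).2)) (S.alive F₀ (p s).2)) ∨
      ((S.board \ ((p t).1 ∪ (p t).2)).card + t ≤ S.board.card ∧
        ((S.board \ ((p t).1 ∪ (p t).2)).card : ℝ) / (2 * lam) <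
          S.mp lam (S.board \ ((p t).1 ∪ (p t).2)) (S.alive F₀ (p t).2)) := by
    intro t
    induction t with
    | zero =>
      right
      rw [hp0]
      simp only [Finset.union_empty, Finset.sdiff_empty, add_zero, le_refl, true_and]
      refine lt_of_lt_of_le hinit (S.best_max lam _ _ _ ?_)
      intro A hA
      rw [S.mem_alive]
      exact ⟨hA, by simp⟩
    | succ t ih =>
      rcases ih with ⟨s, hs, h⟩ | ⟨h1, h2⟩
      · exact Or.inl ⟨s, by omega, h⟩
      by_cases hne : (S.board \ ((p t).1 ∪ (p t).2)).Nonempty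
      · right
        obtain ⟨T, hT, hT2, hpt⟩ := hp t hne
        obtain ⟨hx, hmax⟩ := S.strat_spec lam F₀ (p t).1 (p t).2 hne
        set x := S.strat lam F₀ (p t).1 (p t).2 with hxdef
        set U := S.board \ ((p t).1 ∪ (p t).2) with hUdef
        have hUx : S.board \ (insert x (p t).1 ∪ (p t).2) = U.erase x := by
          ext e
          simp only [hUdef, Finset.mem_sdiff, Finset.mem_union, Finset.mem_insert,
            Finset.mem_erase]
          tauto
        rw [hUx] at hT
        have hU' : S.board \ ((p (t + 1)).1 ∪ (p (t + 1)).2) = (U.erase x) \ T := by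
          rw [hpt]
          ext e
          simp only [hUdef, Finset.mem_sdiff, Finset.mem_union, Finset.mem_insert,
            Finset.mem_erase]
          tauto
        have h3 := S.round_mp lam hlam U Finset.sdiff_subset F₀ (p t).2 T x hx hmax hT hT2
        have hc1 : ((U.erase x) \ T).card = (U.erase x).card - T.card :=
          Finset.card_sdiff_of_subset hT
        have hc2 : (U.erase x).card = U.card - 1 := Finset.card_erase_of_mem hx
        have hc3 : T.card ≤ (U.erase x).card := Finset.card_le_card hT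
        have hc4 : 0 < U.card := Finset.card_pos.2 hne
        rw [hU']
        have hp2 : (p (t + 1)).2 = (p t).2 ∪ T := by rw [hpt]
        rw [hp2]
        refine ⟨by omega, lt_of_lt_of_le ?_ h3⟩
        have hc5 : (((U.erase x) \ T).card : ℝ) + T.card ≤ U.card := by
          have : ((U.erase x) \ T).card + T.card ≤ U.card := by omega
          exact_mod_cast this
        have hc6 : (((U.erase x) \ T).card : ℝ) / (2 * lam) ≤
            ((U.card : ℝ) - T.card) / (2 * lam) := by
          apply div_le_div_of_nonneg_right _ (by positivity)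
          linarith
        rw [sub_div] at hc6
        linarith
      · left
        rw [Finset.not_nonempty_iff_eq_empty] at hne
        refine ⟨t, by omega, hne, ?_⟩
        refine lt_of_le_of_lt ?_ h2
        positivity
  have hfin : ∃ s, S.board \ ((p s).1 ∪ (p s).2) = ∅ ∧
        0 < S.mp lam (S.board \ ((p s).1 ∪ (p s).2)) (S.alive F₀ (p s).2) := by
    rcases hinv (S.board.card + 1) with ⟨s, -, h⟩ | ⟨h1, -⟩
    · exact ⟨s, h⟩
    · omega
  obtain ⟨s, hs, hpos⟩ := hfin
  have hne : (S.best lam (S.board \ ((p s).1 ∪ (p s).2)) (S.alive F₀ (p s).2)).Nonempty := by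
    by_contra h
    rw [Finset.not_nonempty_iff_eq_empty] at h
    unfold mp pot at hpos
    rw [h] at hpos
    simp at hpos
  obtain ⟨A, hA⟩ := hne
  have hA' := S.best_subset _ _ _ hA
  rw [S.mem_alive] at hA'
  refine ⟨s, A, hA'.1, fun e he hinc => ?_⟩
  by_contra hM
  have h1 : e ∉ (p s).2 := fun h => hA'.2 e h hinc
  have h2 : e ∈ S.board \ ((p s).1 ∪ (p s).2) := by
    rw [Finset.mem_sdiff, Finset.mem_union]
    exact ⟨he, by tauto⟩
  rw [hs] at h2
  simp at h2

end Sys

end Clique12
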