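import Mathlib

/-!
Totally monotone set functions: functions `g J = ∑ I ⊆ J, c I` with `c ≥ 0`.
The class is closed under sums and products; it yields the cross inequality used for the
clique game.
-/

open Finset

namespace Clique12

variable {V : Type*} [DecidableEq V]

/-- `g` is totally monotone: `g J = ∑_{I ⊆ J} c I` with `c ≥ 0`. -/
def TM (g : Finset V → ℝ) : Prop :=
  ∃ c : Finset V → ℝ, (∀ I, 0 ≤ c I) ∧ ∀ J, g J = ∑ I ∈ J.powerset, c I

theorem TM.add {g h : Finset V → ℝ} (hg : TM g) (hh : TM h) : TM (fun J => g J + h J) := by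
  obtain ⟨c, hc, hg⟩ := hg
  obtain ⟨d, hd, hh⟩ := hh
  refine ⟨fun I => c I + d I, fun I => add_nonneg (hc I) (hd I), fun J => ?_⟩
  simp only [hg, hh, Finset.sum_add_distrib]

theorem TM.mul {g h : Finset V → ℝ} (hg : TM g) (hh : TM h) : TM (fun J => g J * h J) := by
  obtain ⟨c, hc, hg⟩ := hg
  obtain ⟨d, hd, hh⟩ := hh
  refine ⟨fun K => ∑ p ∈ (K.powerset ×ˢ K.powerset) with p.1 ∪ p.2 = K, c p.1 * d p.2,
    fun K => Finset.sum_nonneg (fun p _ => mul_nonneg (hc _) (hd _)), fun J => ?_⟩
  simp only [hg, hh]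
  rw [Finset.sum_mul_sum, ← Finset.sum_product']
  have hmaps : ∀ p ∈ J.powerset ×ˢ J.powerset, p.1 ∪ p.2 ∈ J.powerset := by
    intro p hp
    rw [Finset.mem_product, Finset.mem_powerset, Finset.mem_powerset] at hp
    rw [Finset.mem_powerset]
    exact Finset.union_subset hp.1 hp.2
  rw [← Finset.sum_fiberwise_of_maps_to hmaps]
  refine Finset.sum_congr rfl (fun K hK => ?_)
  rw [Finset.mem_powerset] at hK
  refine Finset.sum_congr ?_ (fun _ _ => rfl)
  ext p
  simp only [Finset.mem_filter, Finset.mem_product, Finset.mem_powerset]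
  constructor
  · rintro ⟨-, h⟩
    refine ⟨⟨?_, ?_⟩, h⟩
    · rw [← h]; exact Finset.subset_union_left
    · rw [← h]; exact Finset.subset_union_right
  · rintro ⟨⟨h1, h2⟩, h⟩
    exact ⟨⟨h1.trans hK, h2.trans hK⟩, h⟩

theorem TM.const {a : ℝ} (ha : 0 ≤ a) : TM (fun _ : Finset V => a) := by
  refine ⟨fun I => if I = ∅ then a else 0, fun I => ?_, fun J => ?_⟩
  · show 0 ≤ (if I = ∅ then a else 0)
    split_ifs <;> simp [ha]
  · rw [Finset.sum_ite_eq' J.powerset ∅ (fun _ => a)]
    simp

theorem TM.ind (S : Finset V) : TM (fun J : Finset V => if S ⊆ J then (1 : ℝ) else 0) := by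
  refine ⟨fun I => if I = S then 1 else 0, fun I => ?_, fun J => ?_⟩
  · show 0 ≤ (if I = S then (1 : ℝ) else 0)
    split_ifs <;> simp
  · rw [Finset.sum_ite_eq' J.powerset S (fun _ => (1 : ℝ))]
    simp only [Finset.mem_powerset]

theorem TM.congr {g h : Finset V → ℝ} (hg : TM g) (H : ∀ J, h J = g J) : TM h := by
  obtain ⟨c, hc, hg⟩ := hg
  exact ⟨c, hc, fun J => (H J).trans (hg J)⟩

theorem TM.smul {g : Finset V → ℝ} (hg : TM g) {a : ℝ} (ha : 0 ≤ a) :
    TM (fun J => a * g J) := (TM.const ha).mul hg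

theorem TM.sum {ι : Type*} (s : Finset ι) (g : ι → Finset V → ℝ) (hg : ∀ i ∈ s, TM (g i)) :
    TM (fun J => ∑ i ∈ s, g i J) := by
  classical
  induction s using Finset.induction_on with
  | empty => simpa using TM.const (V := V) le_rfl
  | insert i s hi ih =>
    have h1 := (hg i (Finset.mem_insert_self i s)).add
      (ih (fun j hj => hg j (Finset.mem_insert_of_mem hj)))
    refine h1.congr (fun J => ?_)
    rw [Finset.sum_insert hi]

theorem TM.prod {ι : Type*} (s : Finset ι) (g : ι → Finset V → ℝ) (hg : ∀ i ∈ s, TM (g i)) :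
    TM (fun J => ∏ i ∈ s, g i J) := by
  classical
  induction s using Finset.induction_on with
  | empty => simpa using TM.const (V := V) zero_le_one
  | insert i s hi ih =>
    have h1 := (hg i (Finset.mem_insert_self i s)).mul
      (ih (fun j hj => hg j (Finset.mem_insert_of_mem hj)))
    refine h1.congr (fun J => ?_)
    rw [Finset.prod_insert hi]

/-- `J ↦ C(|J|, r)` is totally monotone. -/
theorem TM.choose (r : ℕ) : TM (fun J : Finset V => ((J.card.choose r : ℕ) : ℝ)) := by
  refine ⟨fun I => if I.card = r then 1 else 0, fun I => ?_, fun J => ?_⟩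
  · show 0 ≤ (if I.card = r then (1 : ℝ) else 0)
    split_ifs <;> simp
  · show ((J.card.choose r : ℕ) : ℝ) = _
    rw [← Finset.sum_filter, Finset.sum_const, nsmul_eq_mul, mul_one]
    congr 1
    rw [← Finset.card_powersetCard]
    congr 1
    ext I
    rw [Finset.mem_powersetCard, Finset.mem_filter, Finset.mem_powerset]

theorem sum_pow_powerset (X : Finset V) (a : ℝ) :
    ∑ S ∈ X.powerset, a ^ S.card = (1 + a) ^ X.card := by
  rw [add_comm, ← Finset.sum_pow_mul_eq_add_pow]
  refine Finset.sum_congr rfl (fun S _ => by simp)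

/-- the vertex factor. -/
theorem TM.vertex (N : Finset V) (v : V) :
    TM (fun J : Finset V => if v ∈ J then
      2 * ((3 / 2 : ℝ) ^ (N ∩ J).card - (1 / 5) * (1 / 2 : ℝ) ^ (N ∩ J).card) else 1) := by
  set coef : Finset V → ℝ := fun S =>
    2 * ((1 / 2 : ℝ) ^ S.card - (1 / 5) * (-1 / 2 : ℝ) ^ S.card) - (if S = ∅ then 1 else 0)
    with hcoef
  have hnn : ∀ S, 0 ≤ coef S := by
    intro S
    simp only [hcoef]
    by_cases hS : S = ∅
    · subst hS; norm_num
    · rw [if_neg hS]
      have h2 : (-1 / 2 : ℝ) ^ S.card ≤ (1 / 2 : ℝ) ^ S.card := by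
        have h3 : |(-1 / 2 : ℝ) ^ S.card| = (1 / 2 : ℝ) ^ S.card := by
          rw [abs_pow]; norm_num
        rw [← h3]; exact le_abs_self _
      have h4 : 0 ≤ (1 / 2 : ℝ) ^ S.card := by positivity
      linarith
  have h1 : TM (fun J : Finset V => 1 + ∑ S ∈ N.powerset,
      coef S * (if insert v S ⊆ J then (1 : ℝ) else 0)) := by
    refine (TM.const zero_le_one).add (TM.sum _ _ (fun S _ => ?_))
    exact (TM.ind (insert v S)).smul (hnn S)
  refine h1.congr (fun J => ?_)
  by_cases hvJ : v ∈ J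
  · rw [if_pos hvJ]
    have h5 : ∑ S ∈ N.powerset, coef S * (if insert v S ⊆ J then (1 : ℝ) else 0)
        = ∑ S ∈ (N ∩ J).powerset, coef S := by
      have h6 : (N ∩ J).powerset = N.powerset.filter (fun S => S ⊆ J) := by
        ext S
        rw [Finset.mem_powerset, Finset.mem_filter, Finset.mem_powerset, Finset.subset_inter_iff]
      rw [h6, Finset.sum_filter]
      refine Finset.sum_congr rfl (fun S _ => ?_)
      by_cases hSJ : S ⊆ J
      · rw [if_pos hSJ, if_pos (Finset.insert_subset hvJ hSJ), mul_one]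
      · rw [if_neg hSJ, if_neg (fun h => hSJ ((Finset.subset_insert v S).trans h)), mul_zero]
    rw [h5]
    simp only [hcoef]
    rw [Finset.sum_sub_distrib, ← Finset.mul_sum, Finset.sum_sub_distrib, ← Finset.mul_sum,
      sum_pow_powerset, sum_pow_powerset, Finset.sum_ite_eq' (N ∩ J).powerset ∅ (fun _ => (1 : ℝ)),
      if_pos (Finset.empty_mem_powerset _)]
    norm_num
  · rw [if_neg hvJ]
    have h5 : ∑ S ∈ N.powerset, coef S * (if insert v S ⊆ J then (1 : ℝ) else 0) = 0 := by
      refine Finset.sum_eq_zero (fun S _ => ?_)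
      rw [if_neg (fun h => hvJ (h (Finset.mem_insert_self v S))), mul_zero]
    rw [h5, add_zero]

end Clique12
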