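import Mathlib
import Pool.Agent.Helper61.Clique12.TM

/-!
The kernel `k_U(J) = C(|J|,3) * 3^{u(J)} * ∏_{v ∈ J} γ(deg v)`.
-/

open Finset

namespace Clique12

variable {V : Type*} [DecidableEq V]

/-- the edges of `U` with both ends in `J` -/
def ins (U : Finset (Sym2 V)) (J : Finset V) : Finset (Sym2 V) := U.filter (fun e => e ∈ J.sym2)

/-- the number of edges of `U` inside `J` -/
def cnt (U : Finset (Sym2 V)) (J : Finset V) : ℕ := (ins U J).card

/-- the degree of `v` in the graph `U[J]` -/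
def deg (U : Finset (Sym2 V)) (J : Finset V) (v : V) : ℕ := ((ins U J).filter (fun e => v ∈ e)).card

noncomputable def gam (d : ℕ) : ℝ := 2 - 2 / 5 * (1 / 3 : ℝ) ^ d

noncomputable def kk (U : Finset (Sym2 V)) (J : Finset V) : ℝ :=
  (J.card.choose 3 : ℕ) * 3 ^ (cnt U J) * ∏ v ∈ J, gam (deg U J v)

theorem mem_ins {U : Finset (Sym2 V)} {J : Finset V} {e : Sym2 V} :
    e ∈ ins U J ↔ e ∈ U ∧ e ∈ J.sym2 := by
  rw [ins, Finset.mem_filter]

theorem ins_erase (U : Finset (Sym2 V)) (J : Finset V) (e : Sym2 V) :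
    ins (U.erase e) J = (ins U J).erase e := by
  ext f
  simp only [mem_ins, Finset.mem_erase]
  tauto

theorem ins_erase_out {U : Finset (Sym2 V)} {J : Finset V} {e : Sym2 V} (he : e ∉ J.sym2) :
    ins (U.erase e) J = ins U J := by
  rw [ins_erase, Finset.erase_eq_of_notMem]
  rw [mem_ins]; tauto

theorem cnt_erase_out {U : Finset (Sym2 V)} {J : Finset V} {e : Sym2 V} (he : e ∉ J.sym2) :
    cnt (U.erase e) J = cnt U J := by
  rw [cnt, ins_erase_out he, cnt]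

theorem cnt_erase_in {U : Finset (Sym2 V)} {J : Finset V} {e : Sym2 V} (heU : e ∈ U)
    (he : e ∈ J.sym2) : cnt U J = cnt (U.erase e) J + 1 := by
  rw [cnt, cnt, ins_erase, Finset.card_erase_add_one (mem_ins.2 ⟨heU, he⟩)]

theorem kk_erase_out {U : Finset (Sym2 V)} {J : Finset V} {e : Sym2 V} (he : e ∉ J.sym2) :
    kk (U.erase e) J = kk U J := by
  simp only [kk, cnt, deg, ins_erase_out he]

theorem deg_erase_out {U : Finset (Sym2 V)} {J : Finset V} {e : Sym2 V} {v : V} (hv : v ∉ e) :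
    deg (U.erase e) J v = deg U J v := by
  rw [deg, ins_erase, Finset.filter_erase, Finset.erase_eq_of_notMem, deg]
  rw [Finset.mem_filter]; tauto

theorem deg_erase_in {U : Finset (Sym2 V)} {J : Finset V} {e : Sym2 V} {v : V} (heU : e ∈ U)
    (he : e ∈ J.sym2) (hv : v ∈ e) : deg U J v = deg (U.erase e) J v + 1 := by
  rw [deg, deg, ins_erase, Finset.filter_erase, Finset.card_erase_add_one]
  rw [Finset.mem_filter, mem_ins]; tauto

theorem gam_ge (d : ℕ) : (8 / 5 : ℝ) ≤ gam d := by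
  have h : (1 / 3 : ℝ) ^ d ≤ 1 := pow_le_one₀ (by norm_num) (by norm_num)
  unfold gam; linarith

theorem gam_le (d : ℕ) : gam d ≤ 2 := by
  have h : (0 : ℝ) ≤ (1 / 3 : ℝ) ^ d := by positivity
  unfold gam; linarith

theorem gam_pos (d : ℕ) : 0 < gam d := lt_of_lt_of_le (by norm_num) (gam_ge d)

theorem gam_mono {d e : ℕ} (h : d ≤ e) : gam d ≤ gam e := by
  have h : (1 / 3 : ℝ) ^ e ≤ (1 / 3 : ℝ) ^ d := pow_le_pow_of_le_one (by norm_num) (by norm_num) h
  unfold gam; linarith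

theorem kk_nonneg (U : Finset (Sym2 V)) (J : Finset V) : 0 ≤ kk U J := by
  unfold kk
  have : 0 ≤ ∏ v ∈ J, gam (deg U J v) := Finset.prod_nonneg (fun v _ => (gam_pos _).le)
  positivity

theorem cnt_erase_vertex (U : Finset (Sym2 V)) (J : Finset V) (a : V) :
    cnt U J = cnt U (J.erase a) + deg U J a := by
  have h1 : (ins U J).filter (fun e => ¬ a ∈ e) = ins U (J.erase a) := by
    ext e
    simp only [Finset.mem_filter, mem_ins, Finset.mem_sym2_iff, Finset.mem_erase]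
    constructor
    · rintro ⟨⟨h1, h2⟩, h3⟩
      exact ⟨h1, fun b hb => ⟨fun h => h3 (h ▸ hb), h2 b hb⟩⟩
    · rintro ⟨h1, h2⟩
      exact ⟨⟨h1, fun b hb => (h2 b hb).2⟩, fun h => (h2 a h).1 rfl⟩
  rw [cnt, cnt, deg, ← h1, ← Finset.card_filter_add_card_filter_not (s := ins U J) (fun e => a ∈ e)]
  ring

theorem deg_erase_vertex (U : Finset (Sym2 V)) (J : Finset V) (a v : V) :
    deg U (J.erase a) v ≤ deg U J v := by
  refine Finset.card_le_card ?_
  intro e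
  simp only [Finset.mem_filter, mem_ins, Finset.mem_sym2_iff, Finset.mem_erase]
  rintro ⟨⟨h1, h2⟩, h3⟩
  exact ⟨⟨h1, fun b hb => (h2 b hb).2⟩, h3⟩

/-- The main numerical data of the kernel at an edge `s(a,d)` of `U` inside `J`:
with `s = 3^{-deg a}`, `t = 3^{-deg d}`, both at most `1/3`, and `K ≥ 0`,
`k_U(J) = K (2 - 2s/5)(2 - 2t/5)`, `k_{U∖e}(J) = (K/3) (2 - 6s/5)(2-6t/5)`, and
`k_U(J∖a) ≤ K s (2 - 2t/5)`, `k_U(J∖d) ≤ K t (2 - 2s/5)`. -/
theorem kk_data {U : Finset (Sym2 V)} {J : Finset V} {a d : V} (had : a ≠ d)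
    (heU : s(a, d) ∈ U) (ha : a ∈ J) (hd : d ∈ J) :
    ∃ K s t : ℝ, 0 ≤ K ∧ 0 ≤ s ∧ s ≤ 1 / 3 ∧ 0 ≤ t ∧ t ≤ 1 / 3 ∧
      kk U J = K * ((2 - 2 / 5 * s) * (2 - 2 / 5 * t)) ∧
      kk (U.erase s(a, d)) J = K / 3 * ((2 - 6 / 5 * s) * (2 - 6 / 5 * t)) ∧
      kk U (J.erase a) ≤ K * (s * (2 - 2 / 5 * t)) ∧
      kk U (J.erase d) ≤ K * (t * (2 - 2 / 5 * s)) := by
  have he : s(a, d) ∈ J.sym2 := Finset.mk_mem_sym2_iff.2 ⟨ha, hd⟩
  have hd' : d ∈ J.erase a := Finset.mem_erase.2 ⟨had.symm, hd⟩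
  have ha' : a ∈ J.erase d := Finset.mem_erase.2 ⟨had, ha⟩
  have hcomm : (J.erase d).erase a = (J.erase a).erase d := Finset.erase_right_comm
  set P : ℝ := ∏ v ∈ (J.erase a).erase d, gam (deg U J v) with hP
  have hP0 : 0 ≤ P := Finset.prod_nonneg (fun v _ => (gam_pos _).le)
  have hdega := deg_erase_in (v := a) heU he (Sym2.mem_mk_left a d)
  have hdegd := deg_erase_in (v := d) heU he (Sym2.mem_mk_right a d)
  have hprod : ∏ v ∈ J, gam (deg U J v) = gam (deg U J a) * (gam (deg U J d) * P) := by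
    rw [← Finset.mul_prod_erase J _ ha, ← Finset.mul_prod_erase (J.erase a) _ hd']
  have hprod' : ∏ v ∈ J, gam (deg (U.erase s(a, d)) J v) =
      gam (deg (U.erase s(a, d)) J a) * (gam (deg (U.erase s(a, d)) J d) * P) := by
    rw [← Finset.mul_prod_erase J _ ha, ← Finset.mul_prod_erase (J.erase a) _ hd']
    congr 2
    refine Finset.prod_congr rfl (fun v hv => ?_)
    rw [Finset.mem_erase, Finset.mem_erase] at hv
    rw [deg_erase_out]
    rw [Sym2.mem_iff]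
    tauto
  have hsa : ∀ n : ℕ, (1 / 3 : ℝ) ^ (n + 1) ≤ 1 / 3 := by
    intro n
    rw [pow_succ]
    have : (1 / 3 : ℝ) ^ n ≤ 1 := pow_le_one₀ (by norm_num) (by norm_num)
    linarith
  have hga : gam (deg U J a) = 2 - 2 / 5 * (1 / 3 : ℝ) ^ (deg U J a) := rfl
  have hgd : gam (deg U J d) = 2 - 2 / 5 * (1 / 3 : ℝ) ^ (deg U J d) := rfl
  have hga' : gam (deg (U.erase s(a, d)) J a) = 2 - 6 / 5 * (1 / 3 : ℝ) ^ (deg U J a) := by
    rw [hdega, pow_succ, gam]; ring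
  have hgd' : gam (deg (U.erase s(a, d)) J d) = 2 - 6 / 5 * (1 / 3 : ℝ) ^ (deg U J d) := by
    rw [hdegd, pow_succ, gam]; ring
  have hcnt := cnt_erase_in heU he
  have key : ∀ (b c : V), b ∈ J → c ∈ J.erase b → (J.erase b).erase c = (J.erase a).erase d →
      kk U (J.erase b) ≤ ((J.card.choose 3 : ℕ) * 3 ^ (cnt U J) * P) *
        ((1 / 3 : ℝ) ^ (deg U J b) * gam (deg U J c)) := by
    intro b c hb hc hbc
    have h1 : ∏ v ∈ J.erase b, gam (deg U (J.erase b) v) ≤ ∏ v ∈ J.erase b, gam (deg U J v) :=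
      Finset.prod_le_prod (fun v _ => (gam_pos _).le)
        (fun v _ => gam_mono (deg_erase_vertex U J b v))
    have h2 : ∏ v ∈ J.erase b, gam (deg U J v) = gam (deg U J c) * P := by
      rw [← Finset.mul_prod_erase (J.erase b) _ hc, hbc]
    have h3 : (3 : ℝ) ^ (cnt U (J.erase b)) = 3 ^ (cnt U J) * (1 / 3 : ℝ) ^ (deg U J b) := by
      rw [cnt_erase_vertex U J b, pow_add, mul_assoc, ← mul_pow]; norm_num
    have h4 : (((J.erase b).card.choose 3 : ℕ) : ℝ) ≤ ((J.card.choose 3 : ℕ) : ℝ) := by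
      exact_mod_cast Nat.choose_le_choose 3 (Finset.card_le_card (Finset.erase_subset b J))
    unfold kk
    rw [h3]
    have h5 : 0 ≤ gam (deg U J c) * P := mul_nonneg (gam_pos _).le hP0
    calc (((J.erase b).card.choose 3 : ℕ) : ℝ) * (3 ^ (cnt U J) * (1 / 3 : ℝ) ^ (deg U J b)) *
          ∏ v ∈ J.erase b, gam (deg U (J.erase b) v)
        ≤ ((J.card.choose 3 : ℕ) : ℝ) * (3 ^ (cnt U J) * (1 / 3 : ℝ) ^ (deg U J b)) *
          (gam (deg U J c) * P) := by
          refine mul_le_mul ?_ (h1.trans h2.le) (Finset.prod_nonneg (fun v _ => (gam_pos _).le))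
            (by positivity)
          exact mul_le_mul_of_nonneg_right h4 (by positivity)
      _ = _ := by ring
  refine ⟨(J.card.choose 3 : ℕ) * 3 ^ (cnt U J) * P, (1 / 3 : ℝ) ^ (deg U J a),
    (1 / 3 : ℝ) ^ (deg U J d), by positivity, by positivity, ?_, by positivity, ?_, ?_, ?_, ?_, ?_⟩
  · rw [hdega]; exact hsa _
  · rw [hdegd]; exact hsa _
  · unfold kk
    rw [hprod, hga, hgd]; ring
  · unfold kk
    rw [hprod', hga', hgd', hcnt, pow_succ]; ring
  · exact key a d ha hd' rfl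
  · exact key d a hd ha' hcomm

theorem kk_erase_le {U : Finset (Sym2 V)} {J : Finset V} {a d : V} (had : a ≠ d)
    (heU : s(a, d) ∈ U) (ha : a ∈ J) (hd : d ∈ J) :
    kk (U.erase s(a, d)) J ≤ kk U J / 3 := by
  obtain ⟨K, s, t, hK, hs, hs3, ht, ht3, h1, h2, -, -⟩ := kk_data had heU ha hd
  rw [h1, h2]
  have h : (2 - 6 / 5 * s) * (2 - 6 / 5 * t) ≤ (2 - 2 / 5 * s) * (2 - 2 / 5 * t) := by
    apply mul_le_mul <;> nlinarith
  nlinarith

theorem kk_erase_ge {U : Finset (Sym2 V)} {J : Finset V} {a d : V} (had : a ≠ d)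
    (heU : s(a, d) ∈ U) (ha : a ∈ J) (hd : d ∈ J) :
    12 / 49 * kk U J ≤ kk (U.erase s(a, d)) J := by
  obtain ⟨K, s, t, hK, hs, hs3, ht, ht3, h1, h2, -, -⟩ := kk_data had heU ha hd
  rw [h1, h2]
  have hs' : 6 / 7 * (2 - 2 / 5 * s) ≤ 2 - 6 / 5 * s := by linarith
  have ht' : 6 / 7 * (2 - 2 / 5 * t) ≤ 2 - 6 / 5 * t := by linarith
  have h : (6 / 7 * (2 - 2 / 5 * s)) * (6 / 7 * (2 - 2 / 5 * t)) ≤
      (2 - 6 / 5 * s) * (2 - 6 / 5 * t) := by
    apply mul_le_mul hs' ht' <;> linarith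
  nlinarith

/-- the slack inequality (C) -/
theorem kk_slack {U : Finset (Sym2 V)} {J : Finset V} {a d : V} (had : a ≠ d)
    (heU : s(a, d) ∈ U) (ha : a ∈ J) (hd : d ∈ J) :
    kk U (J.erase a) + kk U (J.erase d) ≤ (3 * kk U J - 9 * kk (U.erase s(a, d)) J) / 2 := by
  obtain ⟨K, s, t, hK, hs, hs3, ht, ht3, h1, h2, h3, h4⟩ := kk_data had heU ha hd
  refine (add_le_add h3 h4).trans ?_
  rw [h1, h2]
  have h : s * (2 - 2 / 5 * t) + t * (2 - 2 / 5 * s) ≤
      (3 * ((2 - 2 / 5 * s) * (2 - 2 / 5 * t)) - 3 * ((2 - 6 / 5 * s) * (2 - 6 / 5 * t))) / 2 := by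
    nlinarith [mul_nonneg hs (sub_nonneg.2 ht3), mul_nonneg ht (sub_nonneg.2 hs3)]
  nlinarith

theorem kk_ge_nine {U : Finset (Sym2 V)} {J : Finset V} {x y : Sym2 V} (hxy : x ≠ y)
    (hx : x ∈ U) (hy : y ∈ U) (hxJ : x ∈ J.sym2) (hyJ : y ∈ J.sym2)
    (hxd : ¬ x.IsDiag) (hyd : ¬ y.IsDiag) : 9 ≤ kk U J := by
  have h2 : 2 ≤ cnt U J := by
    have : ({x, y} : Finset (Sym2 V)).card = 2 := Finset.card_pair hxy
    rw [← this]
    refine Finset.card_le_card ?_
    intro e he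
    rw [Finset.mem_insert, Finset.mem_singleton] at he
    rw [mem_ins]
    rcases he with rfl | rfl
    · exact ⟨hx, hxJ⟩
    · exact ⟨hy, hyJ⟩
  have h3 : 3 ≤ J.card := by
    by_contra hlt
    push Not at hlt
    -- all off-diagonal edges inside `J` : at most one
    have h4 : ({x, y} : Finset (Sym2 V)) ⊆ J.offDiag.image Sym2.mk.uncurry := by
      intro e he
      rw [Finset.mem_insert, Finset.mem_singleton] at he
      have h5 : e ∈ J.sym2 ∧ ¬ e.IsDiag := by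
        rcases he with rfl | rfl
        · exact ⟨hxJ, hxd⟩
        · exact ⟨hyJ, hyd⟩
      obtain ⟨h5, h6⟩ := h5
      induction e using Sym2.ind with
      | _ a b =>
        rw [Finset.mk_mem_sym2_iff] at h5
        rw [Sym2.mk_isDiag_iff] at h6
        rw [Finset.mem_image]
        exact ⟨(a, b), Finset.mem_offDiag.2 ⟨h5.1, h5.2, h6⟩, rfl⟩
    have h7 := Finset.card_le_card h4
    rw [Finset.card_pair hxy, Sym2.card_image_offDiag] at h7
    have h8 : J.card.choose 2 ≤ (2 : ℕ).choose 2 := Nat.choose_le_choose 2 (by omega)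
    simp at h8
    omega
  have h4 : (1 : ℝ) ≤ ((J.card.choose 3 : ℕ) : ℝ) := by
    exact_mod_cast Nat.choose_pos h3
  have h5 : (9 : ℝ) ≤ 3 ^ (cnt U J) := by
    calc (9 : ℝ) = 3 ^ 2 := by norm_num
      _ ≤ 3 ^ (cnt U J) := pow_le_pow_right₀ (by norm_num) h2
  have h6 : 1 ≤ ∏ v ∈ J, gam (deg U J v) := by
    have : ∏ v ∈ J, (1 : ℝ) ≤ ∏ v ∈ J, gam (deg U J v) :=
      Finset.prod_le_prod (fun _ _ => zero_le_one)
        (fun v _ => le_trans (by norm_num) (gam_ge _))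
    simpa using this
  unfold kk
  have h7 : (9 : ℝ) ≤ ((J.card.choose 3 : ℕ) : ℝ) * 3 ^ (cnt U J) := by nlinarith
  nlinarith

/-- handshake lemma -/
theorem handshake {U : Finset (Sym2 V)} (hU : ∀ e ∈ U, ¬ e.IsDiag) (J : Finset V) :
    ∑ v ∈ J, deg U J v = 2 * cnt U J := by
  have h1 : ∑ v ∈ J, deg U J v = ∑ e ∈ ins U J, (J.filter (fun v => v ∈ e)).card := by
    simp only [deg]
    exact Finset.sum_card_bipartiteAbove_eq_sum_card_bipartiteBelow (fun v e => v ∈ e)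
  rw [h1, cnt, mul_comm, ← smul_eq_mul, ← Finset.sum_const]
  refine Finset.sum_congr rfl (fun e he => ?_)
  rw [mem_ins] at he
  obtain ⟨heU, heJ⟩ := he
  have hd := hU e heU
  induction e using Sym2.ind with
  | _ a b =>
    rw [Finset.mk_mem_sym2_iff] at heJ
    rw [Sym2.mk_isDiag_iff] at hd
    have : J.filter (fun v => v ∈ s(a, b)) = {a, b} := by
      ext v
      rw [Finset.mem_filter, Sym2.mem_iff, Finset.mem_insert, Finset.mem_singleton]
      constructor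
      · rintro ⟨-, h⟩; exact h
      · rintro (rfl | rfl)
        · exact ⟨heJ.1, Or.inl rfl⟩
        · exact ⟨heJ.2, Or.inr rfl⟩
    rw [this, Finset.card_pair hd]

/-- neighbours -/
def nb [Fintype V] (U : Finset (Sym2 V)) (v : V) : Finset V :=
  Finset.univ.filter (fun w => s(v, w) ∈ U)

theorem deg_eq_nb [Fintype V] (U : Finset (Sym2 V)) {J : Finset V} {v : V} (hv : v ∈ J) :
    deg U J v = (nb U v ∩ J).card := by
  symm
  refine Finset.card_bij (fun w _ => s(v, w)) ?_ ?_ ?_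
  · intro w hw
    rw [Finset.mem_inter, nb, Finset.mem_filter] at hw
    rw [Finset.mem_filter, mem_ins, Finset.mk_mem_sym2_iff]
    exact ⟨⟨hw.1.2, hv, hw.2⟩, Sym2.mem_mk_left v w⟩
  · intro w _ w' _ h
    exact Sym2.congr_right.1 h
  · intro e he
    rw [Finset.mem_filter, mem_ins] at he
    obtain ⟨⟨heU, heJ⟩, hve⟩ := he
    obtain ⟨w, rfl⟩ := Sym2.mem_iff_exists.1 hve
    rw [Finset.mk_mem_sym2_iff] at heJ
    refine ⟨w, ?_, rfl⟩
    rw [Finset.mem_inter, nb, Finset.mem_filter]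
    exact ⟨⟨Finset.mem_univ _, heU⟩, heJ.2⟩

/-- (P): the kernel is totally monotone. -/
theorem kk_TM [Fintype V] {U : Finset (Sym2 V)} (hU : ∀ e ∈ U, ¬ e.IsDiag) :
    TM (fun J : Finset V => kk U J) := by
  have h1 : TM (fun J : Finset V => ∏ e ∈ U,
      (1 + 1 / 3 * (if e.toFinset ⊆ J then (1 : ℝ) else 0))) :=
    TM.prod _ _ (fun e _ => (TM.const zero_le_one).add ((TM.ind e.toFinset).smul (by norm_num)))
  have h2 : TM (fun J : Finset V => ∏ v ∈ (Finset.univ : Finset V), (if v ∈ J then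
      2 * ((3 / 2 : ℝ) ^ (nb U v ∩ J).card - (1 / 5) * (1 / 2 : ℝ) ^ (nb U v ∩ J).card) else 1)) :=
    TM.prod _ _ (fun v _ => TM.vertex (nb U v) v)
  refine (((TM.choose 3).mul h1).mul h2).congr (fun J => ?_)
  have h3 : ∏ e ∈ U, (1 + 1 / 3 * (if e.toFinset ⊆ J then (1 : ℝ) else 0)) =
      (4 / 3 : ℝ) ^ (cnt U J) := by
    rw [cnt, ins, ← Finset.prod_const, Finset.prod_filter]
    refine Finset.prod_congr rfl (fun e _ => ?_)
    have h4 : e.toFinset ⊆ J ↔ e ∈ J.sym2 := by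
      rw [Finset.mem_sym2_iff]
      constructor
      · intro h a ha; exact h (Sym2.mem_toFinset.2 ha)
      · intro h a ha; exact h a (Sym2.mem_toFinset.1 ha)
    by_cases h5 : e ∈ J.sym2
    · rw [if_pos h5, if_pos (h4.2 h5)]; norm_num
    · rw [if_neg h5, if_neg (fun h => h5 (h4.1 h))]; norm_num
  have h4 : ∏ v ∈ (Finset.univ : Finset V), (if v ∈ J then
      2 * ((3 / 2 : ℝ) ^ (nb U v ∩ J).card - (1 / 5) * (1 / 2 : ℝ) ^ (nb U v ∩ J).card) else 1) =
      (9 / 4 : ℝ) ^ (cnt U J) * ∏ v ∈ J, gam (deg U J v) := by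
    rw [Finset.prod_ite_mem, Finset.univ_inter]
    have h5 : (9 / 4 : ℝ) ^ (cnt U J) = ∏ v ∈ J, (3 / 2 : ℝ) ^ (deg U J v) := by
      rw [Finset.prod_pow_eq_pow_sum, handshake hU, pow_mul]; norm_num
    rw [h5, ← Finset.prod_mul_distrib]
    refine Finset.prod_congr rfl (fun v hv => ?_)
    rw [deg_eq_nb U hv, gam]
    have h6 : (1 / 2 : ℝ) ^ (nb U v ∩ J).card =
        (3 / 2 : ℝ) ^ (nb U v ∩ J).card * (1 / 3 : ℝ) ^ (nb U v ∩ J).card := by
      rw [← mul_pow]; norm_num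
    rw [h6]; ring
  show kk U J = _
  rw [h3, h4, kk]
  have h5 : (3 : ℝ) ^ (cnt U J) = (4 / 3 : ℝ) ^ (cnt U J) * (9 / 4 : ℝ) ^ (cnt U J) := by
    rw [← mul_pow]; norm_num
  rw [h5]; ring

end Clique12
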