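import Mathlib
import Pool.Agent.Helper61.Clique12.Kernel

/-!
The cross inequality for totally monotone kernels.
-/

open Finset

namespace Clique12

variable {V : Type*} [DecidableEq V]

theorem double_sum_ind (F : Finset (Finset V)) [Fintype V] (c : Finset V → ℝ)
    (p q : Finset V → ℝ) (g : Finset V → ℝ) :
    ∑ A ∈ F, ∑ B ∈ F, p A * q B *
      (∑ I : Finset V, c I * g I * ((if I ⊆ A then 1 else 0) * (if I ⊆ B then 1 else 0))) =
    ∑ I : Finset V, c I * (g I * ((∑ A ∈ F, p A * (if I ⊆ A then 1 else 0)) *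
      (∑ B ∈ F, q B * (if I ⊆ B then 1 else 0)))) := by
  have h1 : ∀ A B : Finset V, p A * q B *
      (∑ I : Finset V, c I * g I * ((if I ⊆ A then 1 else 0) * (if I ⊆ B then 1 else 0))) =
      ∑ I : Finset V, c I * (g I * ((p A * (if I ⊆ A then 1 else 0)) *
        (q B * (if I ⊆ B then 1 else 0)))) := by
    intro A B
    rw [Finset.mul_sum]
    exact Finset.sum_congr rfl (fun I _ => by ring)
  simp only [h1]
  have h2 : ∀ A ∈ F, ∑ B ∈ F, ∑ I : Finset V, c I * (g I * ((p A * (if I ⊆ A then 1 else 0)) *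
        (q B * (if I ⊆ B then 1 else 0)))) = ∑ I : Finset V, ∑ B ∈ F,
        c I * (g I * ((p A * (if I ⊆ A then 1 else 0)) *
        (q B * (if I ⊆ B then 1 else 0)))) := fun A _ => Finset.sum_comm
  rw [Finset.sum_congr rfl h2, Finset.sum_comm]
  refine Finset.sum_congr rfl (fun I _ => ?_)
  rw [Finset.sum_mul_sum, Finset.mul_sum, Finset.mul_sum]
  refine Finset.sum_congr rfl (fun A _ => ?_)
  rw [Finset.mul_sum, Finset.mul_sum]

theorem TM.cross [Fintype V] {k : Finset V → ℝ} (hk : TM k) (F : Finset (Finset V))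
    (p q p' q' : Finset V → ℝ) (a d b e : V)
    (hp0 : ∀ A, 0 ≤ p A) (hq0 : ∀ A, 0 ≤ q A) (hpp : ∀ A, p A ≤ p' A) (hqq : ∀ A, q A ≤ q' A)
    (hq : ∀ A, a ∈ A → d ∈ A → q A = 0) (hp : ∀ A, b ∈ A → e ∈ A → p A = 0) :
    2 * ∑ A ∈ F, ∑ B ∈ F, p A * q B * k (A ∩ B) ≤
      ∑ A ∈ F, ∑ B ∈ F, p' A * p' B * (k ((A ∩ B).erase a) + k ((A ∩ B).erase d)) +
      ∑ A ∈ F, ∑ B ∈ F, q' A * q' B * (k ((A ∩ B).erase b) + k ((A ∩ B).erase e)) := by
  obtain ⟨c, hc, hk⟩ := hk
  have hk1 : ∀ J, k J = ∑ I : Finset V, if I ⊆ J then c I else 0 := by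
    intro J
    rw [hk, ← Finset.sum_filter]
    refine Finset.sum_congr ?_ (fun _ _ => rfl)
    ext I
    rw [Finset.mem_powerset, Finset.mem_filter]
    exact ⟨fun h => ⟨Finset.mem_univ _, h⟩, fun h => h.2⟩
  have hk2 : ∀ A B : Finset V, k (A ∩ B) =
      ∑ I : Finset V, c I * 1 * ((if I ⊆ A then 1 else 0) * (if I ⊆ B then 1 else 0)) := by
    intro A B
    rw [hk1]
    refine Finset.sum_congr rfl (fun I _ => ?_)
    by_cases h1 : I ⊆ A <;> by_cases h2 : I ⊆ B <;> simp [Finset.subset_inter_iff, h1, h2]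
  have hk3 : ∀ (x y : V) (A B : Finset V), k ((A ∩ B).erase x) + k ((A ∩ B).erase y) =
      ∑ I : Finset V, c I * ((if x ∉ I then 1 else 0) + (if y ∉ I then 1 else 0)) *
        ((if I ⊆ A then 1 else 0) * (if I ⊆ B then 1 else 0)) := by
    intro x y A B
    rw [hk1, hk1, ← Finset.sum_add_distrib]
    refine Finset.sum_congr rfl (fun I _ => ?_)
    have h5 : ∀ z : V, (I ⊆ (A ∩ B).erase z) ↔ ((I ⊆ A ∧ I ⊆ B) ∧ z ∉ I) := by
      intro z
      rw [Finset.subset_erase, Finset.subset_inter_iff]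
    by_cases h1 : I ⊆ A <;> by_cases h2 : I ⊆ B <;> by_cases h3 : x ∈ I <;>
      by_cases h4 : y ∈ I <;> simp only [h5, h1, h2, h3, h4] <;> norm_num
    ring
  simp only [hk2, hk3]
  rw [double_sum_ind F c p q (fun _ => 1),
    double_sum_ind F c p' p' (fun I => (if a ∉ I then 1 else 0) + (if d ∉ I then 1 else 0)),
    double_sum_ind F c q' q' (fun I => (if b ∉ I then 1 else 0) + (if e ∉ I then 1 else 0)),
    Finset.mul_sum, ← Finset.sum_add_distrib]
  refine Finset.sum_le_sum (fun I _ => ?_)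
  set P := ∑ A ∈ F, p A * (if I ⊆ A then (1 : ℝ) else 0) with hP
  set Q := ∑ A ∈ F, q A * (if I ⊆ A then (1 : ℝ) else 0) with hQ
  set P' := ∑ A ∈ F, p' A * (if I ⊆ A then (1 : ℝ) else 0) with hP'
  set Q' := ∑ A ∈ F, q' A * (if I ⊆ A then (1 : ℝ) else 0) with hQ'
  have hP0 : 0 ≤ P := Finset.sum_nonneg (fun A _ => mul_nonneg (hp0 A) (by split_ifs <;> norm_num))
  have hQ0 : 0 ≤ Q := Finset.sum_nonneg (fun A _ => mul_nonneg (hq0 A) (by split_ifs <;> norm_num))
  have hPP : P ≤ P' := Finset.sum_le_sum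
    (fun A _ => mul_le_mul_of_nonneg_right (hpp A) (by split_ifs <;> norm_num))
  have hQQ : Q ≤ Q' := Finset.sum_le_sum
    (fun A _ => mul_le_mul_of_nonneg_right (hqq A) (by split_ifs <;> norm_num))
  have key : 2 * (P * Q) ≤ ((if a ∉ I then (1 : ℝ) else 0) + (if d ∉ I then 1 else 0)) * (P' * P') +
      ((if b ∉ I then (1 : ℝ) else 0) + (if e ∉ I then 1 else 0)) * (Q' * Q') := by
    have hpos : ∀ x y : V, (0 : ℝ) ≤ (if x ∉ I then (1 : ℝ) else 0) + (if y ∉ I then 1 else 0) := by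
      intro x y; split_ifs <;> norm_num
    have hR : 0 ≤ ((if a ∉ I then (1 : ℝ) else 0) + (if d ∉ I then 1 else 0)) * (P' * P') +
      ((if b ∉ I then (1 : ℝ) else 0) + (if e ∉ I then 1 else 0)) * (Q' * Q') :=
      add_nonneg (mul_nonneg (hpos a d) (mul_self_nonneg _))
        (mul_nonneg (hpos b e) (mul_self_nonneg _))
    by_cases h1 : a ∈ I ∧ d ∈ I
    · have : Q = 0 := by
        refine Finset.sum_eq_zero (fun A _ => ?_)
        by_cases hIA : I ⊆ A
        · rw [hq A (hIA h1.1) (hIA h1.2), zero_mul]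
        · rw [if_neg hIA, mul_zero]
      rw [this, mul_zero, mul_zero]; exact hR
    by_cases h2 : b ∈ I ∧ e ∈ I
    · have : P = 0 := by
        refine Finset.sum_eq_zero (fun A _ => ?_)
        by_cases hIA : I ⊆ A
        · rw [hp A (hIA h2.1) (hIA h2.2), zero_mul]
        · rw [if_neg hIA, mul_zero]
      rw [this, zero_mul, mul_zero]; exact hR
    have h3 : (1 : ℝ) ≤ (if a ∉ I then (1 : ℝ) else 0) + (if d ∉ I then 1 else 0) := by
      by_cases ha : a ∈ I
      · have hd : d ∉ I := fun hd => h1 ⟨ha, hd⟩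
        simp [ha, hd]
      · by_cases hd : d ∈ I <;> simp [ha, hd]
    have h4 : (1 : ℝ) ≤ (if b ∉ I then (1 : ℝ) else 0) + (if e ∉ I then 1 else 0) := by
      by_cases ha : b ∈ I
      · have hd : e ∉ I := fun hd => h2 ⟨ha, hd⟩
        simp [ha, hd]
      · by_cases hd : e ∈ I <;> simp [ha, hd]
    have h5 : P * P ≤ P' * P' := mul_le_mul hPP hPP hP0 (hP0.trans hPP)
    have h6 : Q * Q ≤ Q' * Q' := mul_le_mul hQQ hQQ hQ0 (hQ0.trans hQQ)
    have h7 : 1 * (P' * P') ≤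
        ((if a ∉ I then (1 : ℝ) else 0) + (if d ∉ I then 1 else 0)) * (P' * P') :=
      mul_le_mul_of_nonneg_right h3 (mul_self_nonneg _)
    have h8 : 1 * (Q' * Q') ≤
        ((if b ∉ I then (1 : ℝ) else 0) + (if e ∉ I then 1 else 0)) * (Q' * Q') :=
      mul_le_mul_of_nonneg_right h4 (mul_self_nonneg _)
    nlinarith [sq_nonneg (P - Q)]
  calc 2 * (c I * (1 * (P * Q))) = c I * (2 * (P * Q)) := by ring
    _ ≤ c I * (((if a ∉ I then (1 : ℝ) else 0) + (if d ∉ I then 1 else 0)) * (P' * P') +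
      ((if b ∉ I then (1 : ℝ) else 0) + (if e ∉ I then 1 else 0)) * (Q' * Q')) :=
        mul_le_mul_of_nonneg_left key (hc I)
    _ = _ := by ring

end Clique12
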