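import Mathlib
import Pool.Agent.Helper61.Clique12.Cross
import Pool.Agent.Helper61.Clique12.RoundLemma

/-!
The clique game gives an abstract system.
-/

open Finset

namespace Clique12

variable {V : Type*} [DecidableEq V] [Fintype V]

noncomputable def wt (U : Finset (Sym2 V)) (A : Finset V) : ℝ := (1 / 3 : ℝ) ^ (cnt U A)

noncomputable def WW (U : Finset (Sym2 V)) (A B : Finset V) : ℝ :=
  wt U A * wt U B * kk U (A ∩ B)

omit [Fintype V] in
theorem wt_nonneg (U : Finset (Sym2 V)) (A : Finset V) : 0 ≤ wt U A := by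
  unfold wt; positivity

omit [Fintype V] in
theorem wt_out (U : Finset (Sym2 V)) (e : Sym2 V) (A : Finset V) (h : e ∉ A.sym2) :
    wt (U.erase e) A = wt U A := by
  rw [wt, cnt_erase_out h, wt]

omit [Fintype V] in
theorem wt_in (U : Finset (Sym2 V)) (e : Sym2 V) (A : Finset V) (he : e ∈ U) (h : e ∈ A.sym2) :
    wt (U.erase e) A = 3 * wt U A := by
  rw [wt, wt, cnt_erase_in he h, pow_succ]; ring

omit [Fintype V] in
theorem mem_inter_sym2 {e : Sym2 V} {A B : Finset V} :
    e ∈ (A ∩ B).sym2 ↔ e ∈ A.sym2 ∧ e ∈ B.sym2 := by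
  induction e using Sym2.ind with
  | _ a b =>
    simp only [Finset.mk_mem_sym2_iff, Finset.mem_inter]
    tauto

/-- the system attached to the clique game on a board of non-diagonal edges -/
noncomputable def cliqueSys (board : Finset (Sym2 V)) (hb : ∀ e ∈ board, ¬ e.IsDiag) :
    Sys (Sym2 V) (Finset V) where
  inc := fun e A => e ∈ A.sym2
  board := board
  w := wt
  W := WW
  w_nonneg := wt_nonneg
  W_nonneg := fun U A B => mul_nonneg (mul_nonneg (wt_nonneg U A) (wt_nonneg U B)) (kk_nonneg _ _)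
  W_symm := fun U A B => by unfold WW; rw [Finset.inter_comm B A]; ring
  w_out := wt_out
  w_in := wt_in
  W_out := fun U e A B hA hB => by
    have h : e ∉ (A ∩ B).sym2 := fun h => hA (mem_inter_sym2.1 h).1
    unfold WW
    rw [wt_out U e A hA, wt_out U e B hB, kk_erase_out h]
  W_one := fun U e A B he hA hB => by
    have h : e ∉ (A ∩ B).sym2 := fun h => hB (mem_inter_sym2.1 h).2
    unfold WW
    rw [wt_in U e A he hA, wt_out U e B hB, kk_erase_out h]; ring
  W_le := fun U e A B hU he hA hB => by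
    have hd := hb e (hU he)
    unfold WW
    rw [wt_in U e A he hA, wt_in U e B he hB]
    induction e using Sym2.ind with
    | _ a d =>
      rw [Sym2.mk_isDiag_iff] at hd
      rw [Finset.mk_mem_sym2_iff] at hA hB
      have h := kk_erase_le hd he (Finset.mem_inter.2 ⟨hA.1, hB.1⟩)
        (Finset.mem_inter.2 ⟨hA.2, hB.2⟩)
      have h2 : 0 ≤ wt U A * wt U B := mul_nonneg (wt_nonneg U A) (wt_nonneg U B)
      nlinarith
  W_ge := fun U e A B hU he hA hB => by
    have hd := hb e (hU he)
    unfold WW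
    rw [wt_in U e A he hA, wt_in U e B he hB]
    induction e using Sym2.ind with
    | _ a d =>
      rw [Sym2.mk_isDiag_iff] at hd
      rw [Finset.mk_mem_sym2_iff] at hA hB
      have h := kk_erase_ge hd he (Finset.mem_inter.2 ⟨hA.1, hB.1⟩)
        (Finset.mem_inter.2 ⟨hA.2, hB.2⟩)
      have h2 : 0 ≤ wt U A * wt U B := mul_nonneg (wt_nonneg U A) (wt_nonneg U B)
      nlinarith
  W_big := fun U x y A B hU hx hy hxy hxA hxB hyA hyB => by
    have h := kk_ge_nine hxy hx hy (mem_inter_sym2.2 ⟨hxA, hxB⟩) (mem_inter_sym2.2 ⟨hyA, hyB⟩)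
      (hb x (hU hx)) (hb y (hU hy))
    have h2 : 0 ≤ wt U A * wt U B := mul_nonneg (wt_nonneg U A) (wt_nonneg U B)
    unfold WW
    nlinarith
  cross := fun U F y z iy iz hU hy hz hy1 hy0 hz1 hz0 => by
    have hyd := hb y (hU hy)
    have hzd := hb z (hU hz)
    have hUd : ∀ e ∈ U, ¬ e.IsDiag := fun e he => hb e (hU he)
    have hiy : ∀ A, 0 ≤ iy A ∧ iy A ≤ 1 := by
      intro A
      by_cases h : y ∈ A.sym2
      · rw [hy1 A h]; norm_num
      · rw [hy0 A h]; norm_num
    have hiz : ∀ A, 0 ≤ iz A ∧ iz A ≤ 1 := by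
      intro A
      by_cases h : z ∈ A.sym2
      · rw [hz1 A h]; norm_num
      · rw [hz0 A h]; norm_num
    -- slack comparison
    have hslack : ∀ (y : Sym2 V) (iy : Finset V → ℝ) (a d : V), y = s(a, d) → y ∈ U →
        ¬ y.IsDiag → (∀ A : Finset V, y ∈ A.sym2 → iy A = 1) →
        (∀ A : Finset V, y ∉ A.sym2 → iy A = 0) →
        ∑ A ∈ F, ∑ B ∈ F, (iy A * wt U A) * (iy B * wt U B) *
          (kk U ((A ∩ B).erase a) + kk U ((A ∩ B).erase d)) ≤
        ∑ A ∈ F, ∑ B ∈ F, iy A * iy B * ((3 * WW U A B - WW (U.erase y) A B) / 2) := by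
      intro y iy a d hyad hy hyd hy1 hy0
      refine Finset.sum_le_sum (fun A _ => Finset.sum_le_sum (fun B _ => ?_))
      by_cases hA : y ∈ A.sym2
      · by_cases hB : y ∈ B.sym2
        · unfold WW
          rw [wt_in U y A hy hA, wt_in U y B hy hB, hy1 A hA, hy1 B hB]
          subst hyad
          rw [Sym2.mk_isDiag_iff] at hyd
          rw [Finset.mk_mem_sym2_iff] at hA hB
          have h := kk_slack hyd hy (Finset.mem_inter.2 ⟨hA.1, hB.1⟩)
            (Finset.mem_inter.2 ⟨hA.2, hB.2⟩)
          have h2 : 0 ≤ wt U A * wt U B := mul_nonneg (wt_nonneg U A) (wt_nonneg U B)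
          nlinarith
        · rw [hy0 B hB]; simp
      · rw [hy0 A hA]; simp
    induction y using Sym2.ind with
    | _ a d =>
      induction z using Sym2.ind with
      | _ b e =>
        have h1 := hslack s(a, d) iy a d rfl hy hyd hy1 hy0
        have h2 := hslack s(b, e) iz b e rfl hz hzd hz1 hz0
        have h3 := (kk_TM hUd).cross F (fun A => iy A * (1 - iz A) * wt U A)
          (fun A => iz A * (1 - iy A) * wt U A) (fun A => iy A * wt U A) (fun A => iz A * wt U A)
          a d b e
          (fun A => mul_nonneg (mul_nonneg (hiy A).1 (by linarith [(hiz A).2])) (wt_nonneg U A))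
          (fun A => mul_nonneg (mul_nonneg (hiz A).1 (by linarith [(hiy A).2])) (wt_nonneg U A))
          (fun A => by
            refine mul_le_mul_of_nonneg_right ?_ (wt_nonneg U A)
            nlinarith [(hiy A).1, (hiz A).1])
          (fun A => by
            refine mul_le_mul_of_nonneg_right ?_ (wt_nonneg U A)
            nlinarith [(hiy A).1, (hiz A).1])
          (fun A ha hd => by
            rw [hy1 A (Finset.mk_mem_sym2_iff.2 ⟨ha, hd⟩)]; ring)
          (fun A ha hd => by
            rw [hz1 A (Finset.mk_mem_sym2_iff.2 ⟨ha, hd⟩)]; ring)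
        refine le_trans (le_of_eq ?_) (h3.trans (add_le_add h1 h2))
        congr 1
        refine Finset.sum_congr rfl (fun A _ => Finset.sum_congr rfl (fun B _ => ?_))
        unfold WW
        ring

end Clique12
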