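import Mathlib
import Pool.Agent.Helper61.Clique12.Inst
import Pool.Agent.Helper61.Clique12.Game

/-!
The initial potential, computed on the family of transversal cliques.
-/

open Finset

namespace Clique12

def gg (i : ℕ) : ℕ := i.choose 3 * 3 ^ (i.choose 2) * 2 ^ i

/-- the number of functions agreeing with `c` on `S` -/
theorem card_agree {q m : ℕ} (c : Fin q → Fin m) (S : Finset (Fin q)) :
    (Finset.univ.filter (fun c' : Fin q → Fin m => ∀ i ∈ S, c i = c' i)).card =
      m ^ (q - S.card) := by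
  have h1 : (Finset.univ.filter (fun c' : Fin q → Fin m => ∀ i ∈ S, c i = c' i)) =
      Fintype.piFinset (fun i => if i ∈ S then {c i} else Finset.univ) := by
    ext c'
    simp only [Finset.mem_filter, Finset.mem_univ, true_and, Fintype.mem_piFinset]
    refine forall_congr' (fun i => ?_)
    by_cases hi : i ∈ S
    · simp only [hi, if_true, Finset.mem_singleton, true_imp_iff]
      exact eq_comm
    · simp [hi]
  rw [h1, Fintype.card_piFinset]
  have h2 : ∀ i : Fin q, (if i ∈ S then ({c i} : Finset (Fin m)) else Finset.univ).card =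
      if i ∈ S then 1 else m := by
    intro i
    split_ifs <;> simp
  simp only [h2]
  rw [Finset.prod_ite]
  simp only [Finset.prod_const_one, one_mul, Finset.prod_const]
  congr 1
  have h3 : (Finset.univ.filter (fun i : Fin q => i ∉ S)) = Sᶜ := by
    ext i; simp
  rw [h3, Finset.card_compl, Fintype.card_fin]

theorem sum_agree_le {q m : ℕ} (c : Fin q → Fin m) (g : ℕ → ℕ) :
    ∑ c' : Fin q → Fin m, g (Finset.univ.filter (fun i => c i = c' i)).card ≤
      ∑ i ∈ Finset.range (q + 1), q.choose i * (g i * m ^ (q - i)) := by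
  have h1 : ∀ c' : Fin q → Fin m, g (Finset.univ.filter (fun i => c i = c' i)).card ≤
      ∑ S : Finset (Fin q), if (∀ i ∈ S, c i = c' i) then g S.card else 0 := by
    intro c'
    have h2 := Finset.single_le_sum (s := (Finset.univ : Finset (Finset (Fin q))))
      (f := fun S => if (∀ i ∈ S, c i = c' i) then g S.card else 0)
      (fun S _ => Nat.zero_le _) (Finset.mem_univ (Finset.univ.filter (fun i => c i = c' i)))
    refine le_trans (le_of_eq ?_) h2
    show _ = if _ then _ else _
    rw [if_pos]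
    intro i hi
    exact (Finset.mem_filter.1 hi).2
  refine (Finset.sum_le_sum (fun c' _ => h1 c')).trans ?_
  rw [Finset.sum_comm]
  have h3 : ∀ S : Finset (Fin q), ∑ c' : Fin q → Fin m,
      (if (∀ i ∈ S, c i = c' i) then g S.card else 0) = g S.card * m ^ (q - S.card) := by
    intro S
    rw [← Finset.sum_filter, Finset.sum_const, card_agree, smul_eq_mul, mul_comm]
  simp only [h3]
  have h4 := Finset.sum_powerset_apply_card (fun i => g i * m ^ (q - i))
    (x := (Finset.univ : Finset (Fin q)))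
  rw [Finset.powerset_univ, Finset.card_univ, Fintype.card_fin] at h4
  rw [h4]
  simp only [smul_eq_mul]
  exact le_rfl

variable {V : Type*} [DecidableEq V] [Fintype V]

/-- the transversal clique attached to `c` -/
def tr {q m : ℕ} (φ : Fin q × Fin m ↪ V) (c : Fin q → Fin m) : Finset V :=
  Finset.univ.image (fun i => φ (i, c i))

omit [Fintype V] in
theorem tr_fun_inj {q m : ℕ} (φ : Fin q × Fin m ↪ V) (c : Fin q → Fin m) :
    Function.Injective (fun i => φ (i, c i)) := by
  intro i j h
  have := φ.injective h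
  exact (Prod.ext_iff.1 this).1

omit [Fintype V] in
theorem tr_card {q m : ℕ} (φ : Fin q × Fin m ↪ V) (c : Fin q → Fin m) : (tr φ c).card = q := by
  rw [tr, Finset.card_image_of_injective _ (tr_fun_inj φ c), Finset.card_univ, Fintype.card_fin]

omit [Fintype V] in
theorem mem_tr {q m : ℕ} (φ : Fin q × Fin m ↪ V) (c : Fin q → Fin m) (i : Fin q) (j : Fin m) :
    φ (i, j) ∈ tr φ c ↔ c i = j := by
  rw [tr, Finset.mem_image]
  constructor
  · rintro ⟨i', -, h⟩
    have := φ.injective h
    rw [Prod.ext_iff] at this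
    obtain ⟨h1, h2⟩ := this
    simp only at h1 h2
    rw [← h1]; exact h2
  · rintro rfl
    exact ⟨i, Finset.mem_univ _, rfl⟩

omit [Fintype V] in
theorem tr_inj {q m : ℕ} (φ : Fin q × Fin m ↪ V) : Function.Injective (tr φ) := by
  intro c c' h
  funext i
  have h1 : φ (i, c i) ∈ tr φ c := (mem_tr φ c i (c i)).2 rfl
  rw [h] at h1
  exact ((mem_tr φ c' i (c i)).1 h1).symm

omit [Fintype V] in
theorem tr_inter_card {q m : ℕ} (φ : Fin q × Fin m ↪ V) (c c' : Fin q → Fin m) :
    (tr φ c ∩ tr φ c').card = (Finset.univ.filter (fun i => c i = c' i)).card := by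
  have h1 : tr φ c ∩ tr φ c' =
      (Finset.univ.filter (fun i => c i = c' i)).image (fun i => φ (i, c i)) := by
    ext v
    rw [Finset.mem_inter, Finset.mem_image]
    constructor
    · rintro ⟨h1, h2⟩
      rw [tr, Finset.mem_image] at h1
      obtain ⟨i, -, rfl⟩ := h1
      rw [mem_tr] at h2
      exact ⟨i, Finset.mem_filter.2 ⟨Finset.mem_univ _, h2.symm⟩, rfl⟩
    · rintro ⟨i, hi, rfl⟩
      rw [Finset.mem_filter] at hi
      exact ⟨(mem_tr _ _ _ _).2 rfl, (mem_tr _ _ _ _).2 hi.2.symm⟩
  rw [h1, Finset.card_image_of_injective _ (tr_fun_inj φ c)]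

/-- a board consisting of all non-diagonal edges -/
def IsFull (board : Finset (Sym2 V)) : Prop := ∀ e, e ∈ board ↔ ¬ e.IsDiag

omit [Fintype V] in
theorem cnt_full {board : Finset (Sym2 V)} (hb : IsFull board) (A : Finset V) :
    cnt board A = A.card.choose 2 := by
  rw [← Sym2.card_image_offDiag, cnt]
  congr 1
  ext e
  rw [mem_ins, hb, Finset.mem_image]
  induction e using Sym2.ind with
  | _ a b =>
    rw [Finset.mk_mem_sym2_iff, Sym2.mk_isDiag_iff]
    constructor
    · rintro ⟨h1, h2, h3⟩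
      exact ⟨(a, b), Finset.mem_offDiag.2 ⟨h2, h3, h1⟩, rfl⟩
    · rintro ⟨⟨x, y⟩, h, h'⟩
      rw [Finset.mem_offDiag] at h
      simp only [Function.uncurry_apply_pair, Sym2.eq_iff] at h'
      rcases h' with ⟨rfl, rfl⟩ | ⟨rfl, rfl⟩
      · exact ⟨h.2.2, h.1, h.2.1⟩
      · exact ⟨fun hh => h.2.2 hh.symm, h.2.1, h.1⟩

omit [Fintype V] in
theorem kk_full_le {board : Finset (Sym2 V)} (hb : IsFull board) (J : Finset V) :
    kk board J ≤ (gg J.card : ℕ) := by
  have h1 : ∏ v ∈ J, gam (deg board J v) ≤ 2 ^ J.card := by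
    rw [← Finset.prod_const]
    exact Finset.prod_le_prod (fun v _ => (gam_pos _).le) (fun v _ => gam_le _)
  unfold kk gg
  rw [cnt_full hb]
  push_cast
  exact mul_le_mul_of_nonneg_left h1 (by positivity)

/-- the family of transversal cliques -/
def trFam {q m : ℕ} (φ : Fin q × Fin m ↪ V) : Finset (Finset V) :=
  Finset.univ.image (tr φ)

omit [Fintype V] in
theorem sum_trFam {q m : ℕ} (φ : Fin q × Fin m ↪ V) (g : Finset V → ℝ) :
    ∑ A ∈ trFam φ, g A = ∑ c : Fin q → Fin m, g (tr φ c) := by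
  rw [trFam, Finset.sum_image (fun a _ b _ h => tr_inj φ h)]

omit [Fintype V] in
theorem T_full {q m : ℕ} (φ : Fin q × Fin m ↪ V) {board : Finset (Sym2 V)}
    (hb : IsFull board) :
    ∑ A ∈ trFam φ, wt board A = (m : ℝ) ^ q * (1 / 3 : ℝ) ^ (q.choose 2) := by
  rw [sum_trFam]
  have h1 : ∀ c : Fin q → Fin m, wt board (tr φ c) = (1 / 3 : ℝ) ^ (q.choose 2) := by
    intro c
    rw [wt, cnt_full hb, tr_card]
  simp only [h1, Finset.sum_const, Finset.card_univ, Fintype.card_fun, Fintype.card_fin,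
    nsmul_eq_mul, Nat.cast_pow]

omit [Fintype V] in
theorem W_full_le {q m : ℕ} (φ : Fin q × Fin m ↪ V) {board : Finset (Sym2 V)}
    (hb : IsFull board) :
    ∑ A ∈ trFam φ, ∑ B ∈ trFam φ, WW board A B ≤
      ((1 / 3 : ℝ) ^ (q.choose 2)) ^ 2 * ((m : ℝ) ^ q *
        ((∑ i ∈ Finset.range (q + 1), q.choose i * (gg i * m ^ (q - i)) : ℕ) : ℝ)) := by
  rw [sum_trFam]
  have h0 : ∀ c : Fin q → Fin m, ∑ B ∈ trFam φ, WW board (tr φ c) B ≤
      ((1 / 3 : ℝ) ^ (q.choose 2)) ^ 2 *
        ((∑ i ∈ Finset.range (q + 1), q.choose i * (gg i * m ^ (q - i)) : ℕ) : ℝ) := by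
    intro c
    rw [sum_trFam]
    have h1 : ∀ c' : Fin q → Fin m, WW board (tr φ c) (tr φ c') ≤
        ((1 / 3 : ℝ) ^ (q.choose 2)) ^ 2 *
          ((gg (Finset.univ.filter (fun i => c i = c' i)).card : ℕ) : ℝ) := by
      intro c'
      unfold WW wt
      rw [cnt_full hb, cnt_full hb, tr_card, tr_card, sq, ← tr_inter_card φ c c']
      exact mul_le_mul_of_nonneg_left (kk_full_le hb _) (by positivity)
    refine (Finset.sum_le_sum (fun c' _ => h1 c')).trans ?_
    rw [← Finset.mul_sum]
    refine mul_le_mul_of_nonneg_left ?_ (by positivity)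
    exact_mod_cast sum_agree_le c gg
  refine (Finset.sum_le_sum (fun c _ => h0 c)).trans (le_of_eq ?_)
  simp only [Finset.sum_const, Finset.card_univ, Fintype.card_fun, Fintype.card_fin,
    nsmul_eq_mul, Nat.cast_pow]
  ring

end Clique12
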