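import Mathlib
import Pool.Agent.Helper61.Clique12.Count

/-!
The numerical condition.
-/

open Finset

namespace Clique12

theorem pow10_lt {q : ℕ} (hq : 100 ≤ q) : 768 * q ^ 10 < 3 ^ q := by
  induction q, hq using Nat.le_induction with
  | base => norm_num
  | succ n hn ih =>
    have h1 : (100 * (n + 1)) ^ 10 ≤ (101 * n) ^ 10 := Nat.pow_le_pow_left (by omega) 10
    rw [mul_pow, mul_pow] at h1
    have h2 : (101 : ℕ) ^ 10 ≤ 3 * 100 ^ 10 := by norm_num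
    have h3 : (100 : ℕ) ^ 10 * (n + 1) ^ 10 ≤ 100 ^ 10 * (3 * n ^ 10) :=
      calc (100 : ℕ) ^ 10 * (n + 1) ^ 10 ≤ 101 ^ 10 * n ^ 10 := h1
        _ ≤ (3 * 100 ^ 10) * n ^ 10 := Nat.mul_le_mul_right _ h2
        _ = 100 ^ 10 * (3 * n ^ 10) := by ring
    have h4 : (n + 1) ^ 10 ≤ 3 * n ^ 10 := Nat.le_of_mul_le_mul_left h3 (by norm_num)
    rw [pow_succ 3 n]
    omega

theorem pow5_le {q : ℕ} (hq : 100 ≤ q) : 864 * (q ^ 5 * 2 ^ q) ≤ 3 ^ q := by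
  induction q, hq using Nat.le_induction with
  | base => norm_num
  | succ n hn ih =>
    have h1 : (100 * (n + 1)) ^ 5 ≤ (101 * n) ^ 5 := Nat.pow_le_pow_left (by omega) 5
    rw [mul_pow, mul_pow] at h1
    have h2 : 2 * (101 : ℕ) ^ 5 ≤ 3 * 100 ^ 5 := by norm_num
    have h3 : (100 : ℕ) ^ 5 * (2 * (n + 1) ^ 5) ≤ 100 ^ 5 * (3 * n ^ 5) :=
      calc (100 : ℕ) ^ 5 * (2 * (n + 1) ^ 5) = 2 * (100 ^ 5 * (n + 1) ^ 5) := by ring
        _ ≤ 2 * (101 ^ 5 * n ^ 5) := Nat.mul_le_mul_left _ h1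
        _ = (2 * 101 ^ 5) * n ^ 5 := by ring
        _ ≤ (3 * 100 ^ 5) * n ^ 5 := Nat.mul_le_mul_right _ h2
        _ = 100 ^ 5 * (3 * n ^ 5) := by ring
    have h4 : 2 * (n + 1) ^ 5 ≤ 3 * n ^ 5 := Nat.le_of_mul_le_mul_left h3 (by norm_num)
    calc 864 * ((n + 1) ^ 5 * 2 ^ (n + 1)) = 864 * ((2 * (n + 1) ^ 5) * 2 ^ n) := by
          rw [pow_succ 2 n]; ring
      _ ≤ 864 * ((3 * n ^ 5) * 2 ^ n) :=
          Nat.mul_le_mul_left _ (Nat.mul_le_mul_right _ h4)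
      _ = 3 * (864 * (n ^ 5 * 2 ^ n)) := by ring
      _ ≤ 3 * 3 ^ n := Nat.mul_le_mul_left _ ih
      _ = 3 ^ (n + 1) := by rw [pow_succ 3 n]; ring

theorem choose2_double (i : ℕ) (hi : 4 ≤ i) : 2 * i.choose 2 = 12 + (i + 3) * (i - 4) := by
  obtain ⟨j, rfl⟩ := Nat.exists_eq_add_of_le hi
  have h1 : (4 + j).choose 2 = (4 + j) * (4 + j - 1) / 2 := Nat.choose_two_right _
  have h2 : 4 + j - 1 = 3 + j := by omega
  have h3 : 4 + j - 4 = j := by omega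
  rw [h1, h2, h3]
  have h4 : 2 ∣ (4 + j) * (3 + j) := by
    have := Nat.even_mul_succ_self (3 + j)
    rw [even_iff_two_dvd] at this
    have h5 : (4 + j) * (3 + j) = (3 + j) * (3 + j + 1) := by ring
    rw [h5]; exact this
  rw [Nat.mul_div_cancel' h4]
  ring

/-- for `4 ≤ i ≤ q` one has `3^{C(i,2)} x^i ≤ 3^6 x^4` as soon as `3^{q+3} x^2 ≤ 1`. -/
theorem term_le {q i : ℕ} (hi : 4 ≤ i) (hiq : i ≤ q) {x : ℝ} (hx : 0 ≤ x)
    (hxq : (3 : ℝ) ^ (q + 3) * x ^ 2 ≤ 1) :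
    (3 : ℝ) ^ (i.choose 2) * x ^ i ≤ 729 * x ^ 4 := by
  have h1 : ((3 : ℝ) ^ (i.choose 2) * x ^ i) ^ 2 ≤ (729 * x ^ 4) ^ 2 := by
    have h2 : ((3 : ℝ) ^ (i.choose 2) * x ^ i) ^ 2 =
        (729 * x ^ 4) ^ 2 * ((3 : ℝ) ^ (i + 3) * x ^ 2) ^ (i - 4) := by
      have h3 : ((3 : ℝ) ^ (i.choose 2)) ^ 2 = 3 ^ 12 * (3 ^ (i + 3)) ^ (i - 4) := by
        rw [← pow_mul, mul_comm (i.choose 2) 2, choose2_double i hi, pow_add, pow_mul]
      have h4 : (x ^ i) ^ 2 = (x ^ 4) ^ 2 * (x ^ 2) ^ (i - 4) := by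
        rw [← pow_mul, ← pow_mul, ← pow_mul, ← pow_add]
        congr 1
        omega
      rw [mul_pow, h3, h4, mul_pow, mul_pow]
      norm_num
      ring
    rw [h2]
    have h5 : ((3 : ℝ) ^ (i + 3) * x ^ 2) ^ (i - 4) ≤ 1 := by
      apply pow_le_one₀ (by positivity)
      refine le_trans ?_ hxq
      apply mul_le_mul_of_nonneg_right _ (by positivity)
      exact pow_le_pow_right₀ (by norm_num) (by omega)
    calc (729 * x ^ 4) ^ 2 * ((3 : ℝ) ^ (i + 3) * x ^ 2) ^ (i - 4) ≤ (729 * x ^ 4) ^ 2 * 1 :=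
        mul_le_mul_of_nonneg_left h5 (by positivity)
      _ = _ := by ring
  exact le_of_sq_le_sq₀ h1 (by positivity)
where
  le_of_sq_le_sq₀ {a b : ℝ} (h : a ^ 2 ≤ b ^ 2) (hb : 0 ≤ b) : a ≤ b :=
    le_trans (le_abs_self a) (by rw [← abs_of_nonneg hb]; exact sq_le_sq.1 h)

/-- the finite numerical condition -/
theorem numeric {q m N : ℕ} (hq : 100 ≤ q) (hm : 108 * 3 ^ q ≤ m ^ 2) (hN : N < q * (m + 1)) :
    N ^ 2 * (∑ i ∈ Finset.range (q + 1), q.choose i * (gg i * m ^ (q - i))) < m ^ q := by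
  have hm1 : 1 ≤ m := by
    rcases Nat.eq_zero_or_pos m with h | h
    · subst h
      have : 0 < 3 ^ q := by positivity
      simp at hm
    · exact h
  have hmR : (1 : ℝ) ≤ m := by exact_mod_cast hm1
  have hm0 : (0 : ℝ) < m := by linarith
  have hqR : (100 : ℝ) ≤ q := by exact_mod_cast hq
  set x : ℝ := 2 / m with hx
  have hx0 : 0 ≤ x := by positivity
  have hmsq : (108 : ℝ) * 3 ^ q ≤ (m : ℝ) ^ 2 := by exact_mod_cast hm
  have hxq : (3 : ℝ) ^ (q + 3) * x ^ 2 ≤ 1 := by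
    rw [hx, div_pow, pow_add]
    rw [mul_div_assoc', div_le_one (by positivity)]
    linarith
  -- bound each term
  have hterm : ∀ i ∈ Finset.range (q + 1),
      ((q.choose i * (gg i * m ^ (q - i)) : ℕ) : ℝ) ≤
      (m : ℝ) ^ q * ((if i = 3 then (q : ℝ) ^ 3 * (27 * x ^ 3) / 6 else 0) +
        (q.choose i : ℕ) * ((q : ℝ) ^ 3 * (729 * x ^ 4))) := by
    intro i hi
    rw [Finset.mem_range] at hi
    have hiq : i ≤ q := by omega
    have hpow : (m : ℝ) ^ (q - i) = (m : ℝ) ^ q * (1 / m : ℝ) ^ i := by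
      have : (m : ℝ) ^ q = (m : ℝ) ^ (q - i) * (m : ℝ) ^ i := by
        rw [← pow_add]; congr 1; omega
      rw [this, mul_assoc, ← mul_pow]
      rw [mul_one_div_cancel hm0.ne', one_pow, mul_one]
    have hform : ((q.choose i * (gg i * m ^ (q - i)) : ℕ) : ℝ) =
        (m : ℝ) ^ q * ((q.choose i : ℕ) * ((i.choose 3 : ℕ) *
          ((3 : ℝ) ^ (i.choose 2) * x ^ i))) := by
      push_cast [gg]
      rw [hpow]
      have : x ^ i = 2 ^ i * (1 / m : ℝ) ^ i := by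
        rw [hx, ← mul_pow]; congr 1; ring
      rw [this]; ring
    rw [hform]
    refine mul_le_mul_of_nonneg_left ?_ (by positivity)
    have hsecond : (0 : ℝ) ≤ (q.choose i : ℕ) * ((q : ℝ) ^ 3 * (729 * x ^ 4)) := by positivity
    rcases lt_trichotomy i 3 with h | h | h
    · have h0 : i.choose 3 = 0 := Nat.choose_eq_zero_of_lt h
      rw [h0, if_neg (by omega)]
      simp only [Nat.cast_zero, zero_mul, mul_zero, zero_add]
      exact hsecond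
    · subst h
      rw [if_pos rfl]
      have h1 : ((q.choose 3 : ℕ) : ℝ) ≤ (q : ℝ) ^ 3 / 6 := by
        have := Nat.choose_le_pow_div (α := ℝ) 3 q
        have h6 : ((Nat.factorial 3 : ℕ) : ℝ) = 6 := by norm_num [Nat.factorial]
        rw [h6] at this
        exact this
      have h2 : ((Nat.choose 3 3 : ℕ) : ℝ) = 1 := by norm_num
      have h3 : (3 : ℝ) ^ (Nat.choose 3 2) = 27 := by norm_num [Nat.choose]
      rw [h2, h3]
      have h4 : (0 : ℝ) ≤ 27 * x ^ 3 := by positivity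
      nlinarith
    · rw [if_neg (by omega), zero_add]
      refine mul_le_mul_of_nonneg_left ?_ (by positivity)
      have h1 : ((i.choose 3 : ℕ) : ℝ) ≤ (q : ℝ) ^ 3 := by
        have h2 : i.choose 3 ≤ i ^ 3 := Nat.choose_le_pow i 3
        have h3 : i ^ 3 ≤ q ^ 3 := Nat.pow_le_pow_left hiq 3
        exact_mod_cast h2.trans h3
      exact mul_le_mul h1 (term_le (by omega) hiq hx0 hxq) (by positivity) (by positivity)
  have hsum : ((∑ i ∈ Finset.range (q + 1), q.choose i * (gg i * m ^ (q - i)) : ℕ) : ℝ) ≤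
      (m : ℝ) ^ q * ((q : ℝ) ^ 3 * (27 * x ^ 3) / 6 + 2 ^ q * ((q : ℝ) ^ 3 * (729 * x ^ 4))) := by
    rw [Nat.cast_sum]
    refine (Finset.sum_le_sum hterm).trans (le_of_eq ?_)
    rw [← Finset.mul_sum, Finset.sum_add_distrib,
      Finset.sum_ite_eq' (Finset.range (q + 1)) 3 (fun _ => (q : ℝ) ^ 3 * (27 * x ^ 3) / 6),
      if_pos (Finset.mem_range.2 (by omega)), ← Finset.sum_mul]
    congr 3
    have := Nat.sum_range_choose q
    exact_mod_cast this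
  -- `N^2 ≤ 4 q^2 m^2`
  have hN2 : (N : ℝ) ^ 2 ≤ 4 * (q : ℝ) ^ 2 * (m : ℝ) ^ 2 := by
    have h1 : (N : ℝ) ≤ q * (m + 1) := by exact_mod_cast hN.le
    have h2 : (N : ℝ) ≤ 2 * q * m := by nlinarith
    calc (N : ℝ) ^ 2 ≤ (2 * q * m) ^ 2 := pow_le_pow_left₀ (by positivity) h2 2
      _ = _ := by ring
  -- final
  have hfin : 4 * (q : ℝ) ^ 2 * (m : ℝ) ^ 2 *
      ((q : ℝ) ^ 3 * (27 * x ^ 3) / 6 + 2 ^ q * ((q : ℝ) ^ 3 * (729 * x ^ 4))) < 1 := by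
    have h1 : 4 * (q : ℝ) ^ 2 * (m : ℝ) ^ 2 *
      ((q : ℝ) ^ 3 * (27 * x ^ 3) / 6 + 2 ^ q * ((q : ℝ) ^ 3 * (729 * x ^ 4))) =
      144 * (q : ℝ) ^ 5 / m + 46656 * ((q : ℝ) ^ 5 * 2 ^ q) / (m : ℝ) ^ 2 := by
      rw [hx]
      field_simp
      ring
    rw [h1]
    have h2 : 144 * (q : ℝ) ^ 5 / m < 1 / 2 := by
      rw [div_lt_div_iff₀ hm0 (by norm_num)]
      have h3 : (768 : ℝ) * (q : ℝ) ^ 10 < 3 ^ q := by exact_mod_cast pow10_lt hq
      have h4 : (288 * (q : ℝ) ^ 5) ^ 2 < (m : ℝ) ^ 2 := by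
        calc (288 * (q : ℝ) ^ 5) ^ 2 = 108 * (768 * (q : ℝ) ^ 10) := by ring
          _ < 108 * 3 ^ q := by linarith
          _ ≤ _ := hmsq
      have h5 : 288 * (q : ℝ) ^ 5 < m := lt_of_pow_lt_pow_left₀ 2 hm0.le h4
      linarith
    have h3 : 46656 * ((q : ℝ) ^ 5 * 2 ^ q) / (m : ℝ) ^ 2 ≤ 1 / 2 := by
      rw [div_le_div_iff₀ (by positivity) (by norm_num)]
      have h4 : (864 : ℝ) * ((q : ℝ) ^ 5 * 2 ^ q) ≤ 3 ^ q := by exact_mod_cast pow5_le hq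
      linarith
    linarith
  have hfinal : ((N ^ 2 * (∑ i ∈ Finset.range (q + 1), q.choose i * (gg i * m ^ (q - i))) : ℕ) : ℝ)
      < ((m ^ q : ℕ) : ℝ) := by
    rw [Nat.cast_mul, Nat.cast_pow, Nat.cast_pow]
    calc (N : ℝ) ^ 2 * ((∑ i ∈ Finset.range (q + 1), q.choose i * (gg i * m ^ (q - i)) : ℕ) : ℝ)
        ≤ (4 * (q : ℝ) ^ 2 * (m : ℝ) ^ 2) * ((m : ℝ) ^ q *
          ((q : ℝ) ^ 3 * (27 * x ^ 3) / 6 + 2 ^ q * ((q : ℝ) ^ 3 * (729 * x ^ 4)))) :=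
          mul_le_mul hN2 hsum (by positivity) (by positivity)
      _ = (m : ℝ) ^ q * (4 * (q : ℝ) ^ 2 * (m : ℝ) ^ 2 *
          ((q : ℝ) ^ 3 * (27 * x ^ 3) / 6 + 2 ^ q * ((q : ℝ) ^ 3 * (729 * x ^ 4)))) := by ring
      _ < (m : ℝ) ^ q * 1 := mul_lt_mul_of_pos_left hfin (by positivity)
      _ = _ := by ring
  exact_mod_cast hfinal

end Clique12
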