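import Mathlib
import Pool.Agent.Helper61.Clique12.Numeric

/-!
The parameters for large `N`, and the core theorem.
-/

open Finset

namespace Clique12

theorem board_card_le {N : ℕ} {board : Finset (Sym2 (Fin N))} (hb : IsFull board) :
    (board.card : ℝ) ≤ (N : ℝ) ^ 2 / 2 := by
  have h1 : cnt board Finset.univ = N.choose 2 := by
    rw [cnt_full hb, Finset.card_univ, Fintype.card_fin]
  have h2 : ins board Finset.univ = board := by
    ext e
    rw [mem_ins]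
    refine ⟨fun h => h.1, fun h => ⟨h, ?_⟩⟩
    rw [Finset.mem_sym2_iff]
    exact fun a _ => Finset.mem_univ a
  rw [cnt, h2] at h1
  rw [h1]
  have h3 := Nat.choose_le_pow_div (α := ℝ) 2 N
  have h4 : ((Nat.factorial 2 : ℕ) : ℝ) = 2 := by norm_num [Nat.factorial]
  rw [h4] at h3
  exact h3

/-- the core theorem: under the numerical condition Maker has a positional strategy that
claims a `q`-clique, even if Breaker is only required to claim at most two edges per turn. -/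
theorem clique_core {N q m : ℕ} (hN : 1 ≤ N) (hm : 1 ≤ m) (hqm : q * m ≤ N)
    (hnum : N ^ 2 * (∑ i ∈ Finset.range (q + 1), q.choose i * (gg i * m ^ (q - i))) < m ^ q)
    (board : Finset (Sym2 (Fin N))) (hb : IsFull board) :
    ∃ σ : Finset (Sym2 (Fin N)) → Finset (Sym2 (Fin N)) → Sym2 (Fin N),
      (∀ M B, (board \ (M ∪ B)).Nonempty → σ M B ∈ board \ (M ∪ B)) ∧
      ∀ p : ℕ → Finset (Sym2 (Fin N)) × Finset (Sym2 (Fin N)), p 0 = (∅, ∅) →
        (∀ t, (board \ ((p t).1 ∪ (p t).2)).Nonempty →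
          ∃ T ⊆ board \ (insert (σ (p t).1 (p t).2) (p t).1 ∪ (p t).2), T.card ≤ 2 ∧
            p (t + 1) = (insert (σ (p t).1 (p t).2) (p t).1, (p t).2 ∪ T)) →
        ∃ t, ∃ A : Finset (Fin N), A.card = q ∧
          ∀ a ∈ A, ∀ b ∈ A, a ≠ b → s(a, b) ∈ (p t).1 := by
  classical
  have hmR : (0 : ℝ) < m := by exact_mod_cast hm
  have hNR : (1 : ℝ) ≤ N := by exact_mod_cast hN
  set S := cliqueSys board (fun e he => (hb e).1 he) with hS
  let φ : Fin q × Fin m ↪ Fin N :=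
    (finProdFinEquiv.toEmbedding).trans (Fin.castLEEmb hqm)
  haveI : Nonempty (Sym2 (Fin N)) := ⟨s(⟨0, hN⟩, ⟨0, hN⟩)⟩
  set T₀ : ℝ := (m : ℝ) ^ q * (1 / 3 : ℝ) ^ (q.choose 2) with hT₀
  have hT₀pos : 0 < T₀ := by positivity
  set lam : ℝ := (N : ℝ) ^ 2 / (2 * T₀) with hlamdef
  have hlam : 0 < lam := by positivity
  have hinit : (S.board.card : ℝ) / (2 * lam) < S.pot lam S.board (trFam φ) := by
    have h1 : (S.board.card : ℝ) ≤ (N : ℝ) ^ 2 / 2 := board_card_le hb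
    have h2 : (S.board.card : ℝ) / (2 * lam) ≤ T₀ / 2 := by
      rw [div_le_iff₀ (by positivity)]
      have h3 : T₀ / 2 * (2 * lam) = (N : ℝ) ^ 2 / 2 := by
        rw [hlamdef]; field_simp
      rw [h3]; exact h1
    have h3 : ∑ A ∈ trFam φ, S.w S.board A = T₀ := T_full φ hb
    have h4 : ∑ A ∈ trFam φ, ∑ B ∈ trFam φ, S.W S.board A B ≤
        ((1 / 3 : ℝ) ^ (q.choose 2)) ^ 2 * ((m : ℝ) ^ q *
        ((∑ i ∈ Finset.range (q + 1), q.choose i * (gg i * m ^ (q - i)) : ℕ) : ℝ)) :=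
      W_full_le φ hb
    have h5 : (N : ℝ) ^ 2 *
        ((∑ i ∈ Finset.range (q + 1), q.choose i * (gg i * m ^ (q - i)) : ℕ) : ℝ) <
        (m : ℝ) ^ q := by exact_mod_cast hnum
    have h6 : lam * ∑ A ∈ trFam φ, ∑ B ∈ trFam φ, S.W S.board A B < T₀ / 2 := by
      refine lt_of_le_of_lt (mul_le_mul_of_nonneg_left h4 hlam.le) ?_
      rw [hlamdef, div_mul_eq_mul_div, div_lt_iff₀ (by positivity)]
      have h7 : T₀ / 2 * (2 * T₀) = ((1 / 3 : ℝ) ^ (q.choose 2)) ^ 2 * ((m : ℝ) ^ q *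
          (m : ℝ) ^ q) := by
        rw [hT₀]; ring
      rw [h7]
      have h8 : 0 < ((1 / 3 : ℝ) ^ (q.choose 2)) ^ 2 * (m : ℝ) ^ q := by positivity
      nlinarith
    unfold Sys.pot
    rw [h3]
    linarith
  refine ⟨S.strat lam (trFam φ), ?_, ?_⟩
  · intro M B h
    exact (S.strat_spec lam (trFam φ) M B h).1
  · intro p hp0 hp
    obtain ⟨t, A, hA, hclaim⟩ := S.strat_wins lam hlam (trFam φ) hinit p hp0 hp
    refine ⟨t, A, ?_, ?_⟩
    · rw [trFam, Finset.mem_image] at hA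
      obtain ⟨c, -, rfl⟩ := hA
      exact tr_card φ c
    · intro a ha b hb' hab
      refine hclaim s(a, b) ?_ ?_
      · show s(a, b) ∈ board
        rw [hb, Sym2.mk_isDiag_iff]; exact hab
      · show s(a, b) ∈ A.sym2
        exact Finset.mk_mem_sym2_iff.2 ⟨ha, hb'⟩

/-- The bound in the theorem. -/
noncomputable def RR (N : ℕ) : ℝ :=
  2 * Real.logb 3 N - 2 * Real.logb 3 (Real.logb 3 N) - 6

theorem sq_le_three_pow (q : ℕ) : q ^ 2 ≤ 3 ^ q := by
  induction q with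
  | zero => norm_num
  | succ n ih =>
    rcases Nat.lt_or_ge n 2 with h | h
    · interval_cases n <;> norm_num
    · rw [pow_succ 3 n]
      nlinarith

/-- the parameters -/
theorem params {N : ℕ} (hN : 1100 * 3 ^ 50 ≤ N) :
    ∃ q m : ℕ, 100 ≤ q ∧ 108 * 3 ^ q ≤ m ^ 2 ∧ q * m ≤ N ∧ N < q * (m + 1) ∧
      ∀ r : ℕ, (r : ℝ) ≤ RR N → r ≤ q := by
  refine ⟨max ⌊RR N⌋₊ 100, N / (max ⌊RR N⌋₊ 100), le_max_right _ _, ?_,
    Nat.mul_div_le _ _, ?_, ?_⟩
  rotate_left
  · exact Nat.lt_mul_div_succ N (lt_of_lt_of_le (by norm_num) (le_max_right ⌊RR N⌋₊ 100))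
  · intro r hr
    exact (Nat.le_floor hr).trans (le_max_left _ _)
  rcases Nat.lt_or_ge 100 ⌊RR N⌋₊ with h | h
  · rw [max_eq_left h.le]
    set q := ⌊RR N⌋₊ with hq
    have hRpos : 0 < RR N := by
      by_contra hneg
      push Not at hneg
      have : ⌊RR N⌋₊ = 0 := Nat.floor_of_nonpos hneg
      omega
    have hqR : (q : ℝ) ≤ RR N := Nat.floor_le hRpos.le
    have hNR : (3 : ℝ) ≤ N := by
      have : 3 ≤ N := le_trans (by norm_num) hN
      exact_mod_cast this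
    have hN0 : (0 : ℝ) < N := by linarith
    set l := Real.logb 3 N with hl
    have hl1 : 1 ≤ l := by
      rw [hl, Real.le_logb_iff_rpow_le (by norm_num) hN0, Real.rpow_one]
      exact hNR
    have hll : 0 ≤ Real.logb 3 l := Real.logb_nonneg (by norm_num) hl1
    have hRR : RR N = 2 * l - 2 * Real.logb 3 l - 6 := rfl
    have hq2l : (q : ℝ) ≤ 2 * l := by rw [hRR] at hqR; linarith
    have h3q : (3 : ℝ) ^ q ≤ (N : ℝ) ^ 2 / (l ^ 2 * 729) := by
      have h1 : (3 : ℝ) ^ q = (3 : ℝ) ^ (q : ℝ) := (Real.rpow_natCast 3 q).symm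
      have h2 : (3 : ℝ) ^ (q : ℝ) ≤ (3 : ℝ) ^ (2 * l - 2 * Real.logb 3 l - 6) :=
        Real.rpow_le_rpow_of_exponent_le (by norm_num) (by rw [← hRR]; exact hqR)
      have h3 : (3 : ℝ) ^ (2 * l - 2 * Real.logb 3 l - 6) = (N : ℝ) ^ 2 / (l ^ 2 * 729) := by
        have h4 : (3 : ℝ) ^ (2 * l) = (N : ℝ) ^ 2 := by
          rw [mul_comm, Real.rpow_mul (by norm_num), hl,
            Real.rpow_logb (by norm_num) (by norm_num) hN0]
          exact_mod_cast Real.rpow_natCast (N : ℝ) 2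
        have h5 : (3 : ℝ) ^ (2 * Real.logb 3 l) = l ^ 2 := by
          rw [mul_comm, Real.rpow_mul (by norm_num),
            Real.rpow_logb (by norm_num) (by norm_num) (by linarith)]
          exact_mod_cast Real.rpow_natCast l 2
        have h6 : (3 : ℝ) ^ (6 : ℝ) = 729 := by
          have : (3 : ℝ) ^ (6 : ℝ) = (3 : ℝ) ^ (6 : ℕ) := by
            exact_mod_cast Real.rpow_natCast (3 : ℝ) 6
          rw [this]; norm_num
        rw [Real.rpow_sub (by norm_num), Real.rpow_sub (by norm_num), h4, h5, h6, div_div]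
      rw [h1, ← h3]; exact h2
    have hl0 : 0 < l := by linarith
    have hq0 : (0 : ℝ) < q := by
      have : 0 < q := by omega
      exact_mod_cast this
    -- `27 q ≤ N`
    have h27 : 5 * (q : ℝ) ≤ N := by
      have h1 : (q : ℝ) ^ 2 ≤ 3 ^ q := by exact_mod_cast sq_le_three_pow q
      have h2 : (N : ℝ) ^ 2 / (l ^ 2 * 729) ≤ (N : ℝ) ^ 2 / 25 := by
        apply div_le_div_of_nonneg_left (by positivity) (by norm_num)
        nlinarith
      have h3 : (5 * (q : ℝ)) ^ 2 ≤ (N : ℝ) ^ 2 := by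
        have := (h1.trans h3q).trans h2
        nlinarith
      exact le_of_sq_le_sq₁ h3 hN0.le
    set m := N / q with hm
    have hmlt : (N : ℝ) < q * (m + 1) := by
      have : N < q * (m + 1) := Nat.lt_mul_div_succ N (by omega)
      exact_mod_cast this
    have hmge : 4 * (N : ℝ) ≤ 5 * (q * m) := by nlinarith
    have hmge2 : 2 * (N : ℝ) ≤ 5 * (l * m) := by
      have hm0 : (0 : ℝ) ≤ m := Nat.cast_nonneg m
      nlinarith
    have hmsq : 4 * (N : ℝ) ^ 2 ≤ 25 * (l ^ 2 * (m : ℝ) ^ 2) := by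
      have h1 : (2 * (N : ℝ)) ^ 2 ≤ (5 * (l * m)) ^ 2 := pow_le_pow_left₀ (by positivity) hmge2 2
      nlinarith
    have hfin : (108 : ℝ) * 3 ^ q ≤ (m : ℝ) ^ 2 := by
      have h1 : (3 : ℝ) ^ q * (l ^ 2 * 729) ≤ (N : ℝ) ^ 2 := by
        rwa [le_div_iff₀ (by positivity)] at h3q
      have h2 : l ^ 2 * (108 * 3 ^ q) ≤ l ^ 2 * (m : ℝ) ^ 2 := by nlinarith
      exact le_of_mul_le_mul_left h2 (by positivity)
    exact_mod_cast hfin
  · rw [max_eq_right h]
    have h1 : 11 * 3 ^ 50 ≤ N / 100 := by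
      rw [Nat.le_div_iff_mul_le (by norm_num)]
      omega
    calc 108 * 3 ^ 100 ≤ (11 * 3 ^ 50) ^ 2 := by norm_num
      _ ≤ (N / 100) ^ 2 := Nat.pow_le_pow_left h1 2
where
  le_of_sq_le_sq₁ {a b : ℝ} (h : a ^ 2 ≤ b ^ 2) (hb : 0 ≤ b) : a ≤ b :=
    le_trans (le_abs_self a) (by rw [← abs_of_nonneg hb]; exact sq_le_sq.1 h)

theorem isFull_top (N : ℕ) : IsFull ((⊤ : SimpleGraph (Fin N)).edgeFinset) := by
  intro e
  rw [SimpleGraph.mem_edgeFinset]
  induction e using Sym2.ind with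
  | _ a b => simp

end Clique12
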